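import Mathlib
import Pool.Agent.LGO.Gal.CM

/-!
# LGO/CK: primitive forms of CM points

All statements are elementary.  `smul`: the form of `γ τ` is the form of `τ` transformed by `γ⁻¹`; it has the
same discriminant, it is primitive, and its leading coefficient is positive because
`4 a f(x, y) = (2 a x + b y) ^ 2 - Δ y ^ 2 > 0`.
`exists_coprime`: a primitive form `f(x, y) = a x ^ 2 + b x y + c y ^ 2` represents primitively an integer prime to
`M` (for every prime `p ∣ M` one of `f(1,0) = a`, `f(0,1) = c`, `f(1,1) = a + b + c` is prime to `p`; Chinese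
remainder theorem for `(x, y)`, then divide by the gcd of `x, y`, which keeps `f` prime to `M`), complete
`(x, y)` to a matrix in `SL₂(ℤ)`.
`mul_p`: `τ' = p τ` is a root of `(a / p, b, p c)`; primitive: a common prime divisor `l ≠ p` divides `a, b, c`; if
`p` divides `b` (and `a`) then `p ∣ Δ`.
`finite_disc`: every point is `SL₂(ℤ)`-equivalent to a reduced one (`LGO/Gal/Basic.lean`, `exists_red`,
`ModularGroup.exists_smul_mem_fd`), `jInv` is invariant, and a reduced point has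
`√3 / 2 ≤ Im τ = √|Δ| / (2 a)`, `|b| ≤ a`, so there are finitely many `(a, b, c)`.
`principal`: for `a = a' = 1`: `τ = (-b + √Δ) / 2`, `τ' = (-b' + √Δ) / 2`, `b ≡ b' mod 2`: `τ' = τ + n`.
`integral`: `jInv_mem_of_fixed` in `Pool/Agent/Hhelper14/ZP/Integral.lean`, see `jInv_mem_of_isCM` in
`Pool/Agent/Hhelper14/ZP/Rat.lean`.
-/

namespace Pool.Agent.LGO.CK

open UpperHalfPlane Pool.Agent.Hhelper14.ZP MatrixGroups

/-- `τ` is a root of the primitive positive form `(a, b, c)` -/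
structure HasForm (τ : ℂ) (a b c : ℤ) : Prop where
  pos : 0 < a
  prim : ∀ d : ℤ, d ∣ a → d ∣ b → d ∣ c → IsUnit d
  root : (a : ℂ) * τ ^ 2 + b * τ + c = 0

variable {τ τ' : ℍ} {a b c a' b' c' : ℤ}

theorem HasForm.core (h : HasForm τ a b c) :
    2 * (a : ℝ) * (τ : ℂ).re + b = 0 ∧ 4 * (a : ℝ) * c - b ^ 2 = (2 * a * (τ : ℂ).im) ^ 2 := by
  have hy : 0 < (τ : ℂ).im := τ.im_pos
  have hr := h.root
  set z : ℂ := (τ : ℂ) with hz
  have h1 := congrArg Complex.re hr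
  have h2 := congrArg Complex.im hr
  have e : z = ⟨z.re, z.im⟩ := rfl
  simp only [pow_two, Complex.add_re, Complex.add_im, Complex.mul_re, Complex.mul_im, Complex.intCast_re,
    Complex.intCast_im, Complex.zero_re, Complex.zero_im, zero_mul, sub_zero, add_zero] at h1 h2
  have h3 : z.im * (2 * (a : ℝ) * z.re + b) = 0 := by linear_combination h2
  have h4 : 2 * (a : ℝ) * z.re + b = 0 := (mul_eq_zero.1 h3).resolve_left hy.ne'
  refine ⟨h4, ?_⟩
  linear_combination (-(b : ℝ) + 2 * a * z.re) * h4 * (-1) * (-1) + 4 * (a : ℝ) * h1 - 4 * (a : ℝ) * z.re * h4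

theorem HasForm.apos (h : HasForm τ a b c) : (0 : ℝ) < a := by exact_mod_cast h.pos

theorem HasForm.disc_neg (h : HasForm τ a b c) : b ^ 2 - 4 * a * c < 0 := by
  have h1 := h.core.2
  have h2 : 0 < 2 * (a : ℝ) * (τ : ℂ).im := by
    have := h.apos
    have := τ.im_pos
    positivity
  have h3 : (0 : ℝ) < 4 * (a : ℝ) * c - b ^ 2 := by
    rw [h1]
    positivity
  have h4 : (0 : ℤ) < 4 * a * c - b ^ 2 := by exact_mod_cast h3
  linarith

theorem HasForm.im_eq (h : HasForm τ a b c) :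
    (τ : ℂ).im = √(4 * a * c - b ^ 2 : ℝ) / (2 * a) := by
  have ha := h.apos
  have hy : 0 < (τ : ℂ).im := τ.im_pos
  rw [h.core.2, Real.sqrt_sq (by positivity), mul_comm (2 * (a : ℝ)), mul_div_assoc, div_self (by positivity), mul_one]

theorem prim_bezout {a b c : ℤ} (h : ∀ d : ℤ, d ∣ a → d ∣ b → d ∣ c → IsUnit d) :
    ∃ x y z : ℤ, x * a + y * b + z * c = 1 := by
  have h1 : IsUnit ((Int.gcd a (Int.gcd b c : ℤ) : ℤ)) :=
    h _ (Int.gcd_dvd_left _ _) ((Int.gcd_dvd_right _ _).trans (Int.gcd_dvd_left _ _))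
      ((Int.gcd_dvd_right _ _).trans (Int.gcd_dvd_right _ _))
  have h2 := Int.gcd_eq_gcd_ab a (Int.gcd b c : ℤ)
  have h3 := Int.gcd_eq_gcd_ab b c
  have h4 : (Int.gcd a (Int.gcd b c : ℤ) : ℤ) = 1 := by
    rcases Int.isUnit_iff.1 h1 with h5 | h5
    · exact h5
    · have : (0 : ℤ) ≤ (Int.gcd a (Int.gcd b c : ℤ) : ℤ) := Int.natCast_nonneg _
      omega
  refine ⟨Int.gcdA a (Int.gcd b c : ℤ), Int.gcdB a (Int.gcd b c : ℤ) * Int.gcdA b c,
    Int.gcdB a (Int.gcd b c : ℤ) * Int.gcdB b c, ?_⟩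
  linear_combination h4 - h2 - (Int.gcdB a (Int.gcd b c : ℤ)) * h3

theorem HasForm.unique (h : HasForm τ a b c) (h' : HasForm τ a' b' c') : a = a' ∧ b = b' ∧ c = c' := by
  have hy : (τ : ℂ).im ≠ 0 := τ.im_pos.ne'
  have h1 : ((a' * b - a * b' : ℤ) : ℂ) * τ + ((a' * c - a * c' : ℤ) : ℂ) = 0 := by
    push_cast
    linear_combination (a' : ℂ) * h.root - (a : ℂ) * h'.root
  have h2 : a' * b - a * b' = 0 := by
    have h3 := congrArg Complex.im h1
    simp only [Complex.add_im, Complex.mul_im, Complex.intCast_re, Complex.intCast_im, Complex.zero_im, zero_mul,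
      add_zero] at h3
    have h4 := (mul_eq_zero.1 h3).resolve_right hy
    exact_mod_cast h4
  have h5 : a' * c - a * c' = 0 := by
    rw [h2] at h1
    simp only [Int.cast_zero, zero_mul, zero_add] at h1
    exact_mod_cast h1
  obtain ⟨x, y, z, hxyz⟩ := prim_bezout h.prim
  obtain ⟨x', y', z', hxyz'⟩ := prim_bezout h'.prim
  have d1 : a ∣ a' := ⟨x * a' + y * b' + z * c', by linear_combination (-a') * hxyz + y * h2 + z * h5⟩
  have d2 : a' ∣ a := ⟨x' * a + y' * b + z' * c, by linear_combination (-a) * hxyz' - y' * h2 - z' * h5⟩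
  have e : a = a' := Int.dvd_antisymm h.pos.le h'.pos.le d1 d2
  subst e
  refine ⟨rfl, ?_, ?_⟩
  · apply mul_left_cancel₀ h.pos.ne'
    linarith
  · apply mul_left_cancel₀ h.pos.ne'
    linarith

theorem HasForm.isCM (h : HasForm τ a b c) : IsCM τ := ⟨a, b, c, h.pos.ne', h.root⟩

theorem exists_form (h : IsCM τ) : ∃ a b c, HasForm τ a b c := by
  obtain ⟨a, b, c, ha, hr⟩ := h
  set d : ℕ := Int.gcd a (Int.gcd b c : ℤ) with hd
  obtain ⟨a1, ha1⟩ : (d : ℤ) ∣ a := Int.gcd_dvd_left _ _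
  obtain ⟨b1, hb1⟩ : (d : ℤ) ∣ b := (Int.gcd_dvd_right _ _).trans (Int.gcd_dvd_left _ _)
  obtain ⟨c1, hc1⟩ : (d : ℤ) ∣ c := (Int.gcd_dvd_right _ _).trans (Int.gcd_dvd_right _ _)
  have hd0 : (d : ℤ) ≠ 0 := by
    intro h0
    rw [h0, zero_mul] at ha1
    exact ha ha1
  have ha10 : a1 ≠ 0 := by
    intro h0
    rw [h0, mul_zero] at ha1
    exact ha ha1
  have hp : ∀ e : ℤ, e ∣ a1 → e ∣ b1 → e ∣ c1 → IsUnit e := by
    intro e h1 h2 h3
    have g1 : (d : ℤ) * e ∣ a := by rw [ha1]; exact mul_dvd_mul_left _ h1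
    have g2 : (d : ℤ) * e ∣ b := by rw [hb1]; exact mul_dvd_mul_left _ h2
    have g3 : (d : ℤ) * e ∣ c := by rw [hc1]; exact mul_dvd_mul_left _ h3
    have g4 : (d : ℤ) * e ∣ (d : ℤ) * 1 := by
      rw [mul_one]
      exact Int.dvd_coe_gcd g1 (Int.dvd_coe_gcd g2 g3)
    exact isUnit_of_dvd_one ((mul_dvd_mul_iff_left hd0).1 g4)
  have hr1 : (a1 : ℂ) * τ ^ 2 + b1 * τ + c1 = 0 := by
    have hdc : ((d : ℤ) : ℂ) ≠ 0 := by exact_mod_cast hd0
    apply mul_left_cancel₀ hdc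
    rw [ha1, hb1, hc1] at hr
    push_cast at hr ⊢
    linear_combination hr
  rcases lt_or_gt_of_ne ha10 with hlt | hgt
  · refine ⟨-a1, -b1, -c1, by omega, ?_, ?_⟩
    · intro e h1 h2 h3
      exact hp e (by simpa using h1) (by simpa using h2) (by simpa using h3)
    · push_cast
      linear_combination -hr1
  · exact ⟨a1, b1, c1, hgt, hp, hr1⟩

theorem smul_coe (γ : SL(2, ℤ)) (τ : ℍ) :
    ((γ • τ : ℍ) : ℂ) * ((γ.1 1 0 : ℂ) * τ + γ.1 1 1) = (γ.1 0 0 : ℂ) * τ + γ.1 0 1 :=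
  Gal.maps_sl γ τ

theorem HasForm.smul_form (h : HasForm τ a b c) (γ : SL(2, ℤ)) :
    HasForm ((γ • τ : ℍ) : ℂ) (a * γ.1 1 1 ^ 2 - b * γ.1 1 1 * γ.1 1 0 + c * γ.1 1 0 ^ 2)
      (-2 * a * γ.1 1 1 * γ.1 0 1 + b * (γ.1 1 1 * γ.1 0 0 + γ.1 0 1 * γ.1 1 0) - 2 * c * γ.1 0 0 * γ.1 1 0)
      (a * γ.1 0 1 ^ 2 - b * γ.1 0 1 * γ.1 0 0 + c * γ.1 0 0 ^ 2) := by
  have hdet : γ.1 0 0 * γ.1 1 1 - γ.1 0 1 * γ.1 1 0 = 1 := by
    have := γ.2
    rwa [Matrix.det_fin_two] at this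
  have hm := smul_coe γ τ
  have hden : ((γ.1 1 0 : ℂ) * τ + γ.1 1 1) ≠ 0 := Gal.den_ne_zero (by rw [γ.2]; exact one_ne_zero) τ
  set p := γ.1 0 0
  set q := γ.1 0 1
  set r := γ.1 1 0
  set s := γ.1 1 1
  have hD := h.disc_neg
  refine ⟨?_, ?_, ?_⟩
  · have h4 : 0 < 4 * a * (a * s ^ 2 - b * s * r + c * r ^ 2) := by
      have e : 4 * a * (a * s ^ 2 - b * s * r + c * r ^ 2) = (2 * a * s - b * r) ^ 2 +
        (-(b ^ 2 - 4 * a * c)) * r ^ 2 := by ring
      rw [e]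
      by_cases hr : r = 0
      · have hs : s ≠ 0 := by
          intro hs
          rw [hr, hs] at hdet
          simp at hdet
        have ha := h.pos
        rw [hr]
        have : 0 < (2 * a * s) ^ 2 := by positivity
        simpa using this
      · have h5 : 0 < r ^ 2 := by positivity
        have h6 : 0 < (-(b ^ 2 - 4 * a * c)) * r ^ 2 := mul_pos (by omega) h5
        have h7 : 0 ≤ (2 * a * s - b * r) ^ 2 := sq_nonneg _
        omega
    have ha := h.pos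
    exact (mul_pos_iff_of_pos_left (by omega)).1 h4
  · intro d h1 h2 h3
    have k1 : d ∣ a := by
      have e : a = (a * s ^ 2 - b * s * r + c * r ^ 2) * p ^ 2 +
        (-2 * a * s * q + b * (s * p + q * r) - 2 * c * p * r) * (p * r) +
        (a * q ^ 2 - b * q * p + c * p ^ 2) * r ^ 2 := by
        linear_combination (-a) * (p * s - q * r + 1) * hdet
      rw [e]
      exact dvd_add (dvd_add (Dvd.dvd.mul_right h1 _) (Dvd.dvd.mul_right h2 _)) (Dvd.dvd.mul_right h3 _)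
    have k2 : d ∣ b := by
      have e : b = (a * s ^ 2 - b * s * r + c * r ^ 2) * (2 * p * q) +
        (-2 * a * s * q + b * (s * p + q * r) - 2 * c * p * r) * (p * s + q * r) +
        (a * q ^ 2 - b * q * p + c * p ^ 2) * (2 * r * s) := by
        linear_combination (-b) * (p * s - q * r + 1) * hdet
      rw [e]
      exact dvd_add (dvd_add (Dvd.dvd.mul_right h1 _) (Dvd.dvd.mul_right h2 _)) (Dvd.dvd.mul_right h3 _)
    have k3 : d ∣ c := by
      have e : c = (a * s ^ 2 - b * s * r + c * r ^ 2) * q ^ 2 +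
        (-2 * a * s * q + b * (s * p + q * r) - 2 * c * p * r) * (q * s) +
        (a * q ^ 2 - b * q * p + c * p ^ 2) * s ^ 2 := by
        linear_combination (-c) * (p * s - q * r + 1) * hdet
      rw [e]
      exact dvd_add (dvd_add (Dvd.dvd.mul_right h1 _) (Dvd.dvd.mul_right h2 _)) (Dvd.dvd.mul_right h3 _)
    exact h.prim d k1 k2 k3
  · have hdetc : (p : ℂ) * s - q * r = 1 := by exact_mod_cast hdet
    set z : ℂ := ((γ • τ : ℍ) : ℂ)
    set w : ℂ := (τ : ℂ)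
    apply mul_left_cancel₀ (pow_ne_zero 2 hden)
    rw [mul_zero]
    push_cast
    have e1 : ((r : ℂ) * w + s) ^ 2 * (((a : ℂ) * s ^ 2 - b * s * r + c * r ^ 2) * z ^ 2 +
        (-2 * a * s * q + b * (s * p + q * r) - 2 * c * p * r) * z + (a * q ^ 2 - b * q * p + c * p ^ 2)) =
        ((a : ℂ) * s ^ 2 - b * s * r + c * r ^ 2) * (z * (r * w + s)) ^ 2 +
        (-2 * a * s * q + b * (s * p + q * r) - 2 * c * p * r) * (z * (r * w + s)) * (r * w + s) +
        (a * q ^ 2 - b * q * p + c * p ^ 2) * (r * w + s) ^ 2 := by ring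
    rw [e1, hm]
    have e2 : ((a : ℂ) * s ^ 2 - b * s * r + c * r ^ 2) * (p * w + q) ^ 2 +
        (-2 * a * s * q + b * (s * p + q * r) - 2 * c * p * r) * (p * w + q) * (r * w + s) +
        (a * q ^ 2 - b * q * p + c * p ^ 2) * (r * w + s) ^ 2 = ((p : ℂ) * s - q * r) ^ 2 * (a * w ^ 2 + b * w + c) := by
      ring
    rw [e2, h.root, mul_zero]

theorem smul_disc (γ : SL(2, ℤ)) (a b c : ℤ) :
    (-2 * a * γ.1 1 1 * γ.1 0 1 + b * (γ.1 1 1 * γ.1 0 0 + γ.1 0 1 * γ.1 1 0) - 2 * c * γ.1 0 0 * γ.1 1 0) ^ 2 -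
      4 * (a * γ.1 1 1 ^ 2 - b * γ.1 1 1 * γ.1 1 0 + c * γ.1 1 0 ^ 2) *
        (a * γ.1 0 1 ^ 2 - b * γ.1 0 1 * γ.1 0 0 + c * γ.1 0 0 ^ 2) = b ^ 2 - 4 * a * c := by
  have hdet : γ.1 0 0 * γ.1 1 1 - γ.1 0 1 * γ.1 1 0 = 1 := by
    have := γ.2
    rwa [Matrix.det_fin_two] at this
  linear_combination (b ^ 2 - 4 * a * c) * (γ.1 0 0 * γ.1 1 1 - γ.1 0 1 * γ.1 1 0 + 1) * hdet

theorem HasForm.smul (h : HasForm τ a b c) (γ : SL(2, ℤ)) : ∃ a' b' c',
    HasForm ((γ • τ : ℍ) : ℂ) a' b' c' ∧ b' ^ 2 - 4 * a' * c' = b ^ 2 - 4 * a * c :=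
  ⟨_, _, _, h.smul_form γ, smul_disc γ a b c⟩

theorem exists_value {a b c : ℤ} (h : ∀ d : ℤ, d ∣ a → d ∣ b → d ∣ c → IsUnit d) {M : ℤ} (hM : M ≠ 0) :
    ∃ x y : ℤ, IsCoprime x y ∧ IsCoprime (a * x ^ 2 + b * x * y + c * y ^ 2) M := by
  classical
  set S1 : Finset ℕ := M.natAbs.primeFactors.filter (fun p => (p : ℤ) ∣ a ∧ ¬ (p : ℤ) ∣ c) with hS1
  set S2 : Finset ℕ := M.natAbs.primeFactors.filter (fun p => ¬ (p : ℤ) ∣ a) with hS2
  have key : ∀ (S : Finset ℕ), S ⊆ M.natAbs.primeFactors → ∀ p : ℕ, p.Prime →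
      ((p : ℤ) ∣ ∏ q ∈ S, (q : ℤ) ↔ p ∈ S) := by
    intro S hS p hp
    have hpi : Prime (p : ℤ) := Nat.prime_iff_prime_int.1 hp
    constructor
    · intro hd
      obtain ⟨q, hq, hpq⟩ := (Prime.dvd_finsetProd_iff hpi _).1 hd
      have hqp : q.Prime := Nat.prime_of_mem_primeFactors (hS hq)
      have : p ∣ q := by exact_mod_cast hpq
      rw [(Nat.prime_dvd_prime_iff_eq hp hqp).1 this]
      exact hq
    · intro hp'
      exact Finset.dvd_prod_of_mem (fun q : ℕ => (q : ℤ)) hp'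
  have k1 := key S1 (Finset.filter_subset _ _)
  have k2 := key S2 (Finset.filter_subset _ _)
  set x : ℤ := ∏ q ∈ S1, (q : ℤ)
  set y : ℤ := ∏ q ∈ S2, (q : ℤ)
  have cop : ∀ u v : ℤ, (∀ p : ℕ, p.Prime → (p : ℤ) ∣ u → ¬ (p : ℤ) ∣ v) → IsCoprime u v := by
    intro u v huv
    rw [Int.isCoprime_iff_gcd_eq_one]
    by_contra hne
    obtain ⟨p, hp, hpd⟩ := Nat.exists_prime_and_dvd hne
    have h1 : (p : ℤ) ∣ (Int.gcd u v : ℤ) := by exact_mod_cast hpd
    exact huv p hp (h1.trans (Int.gcd_dvd_left _ _)) (h1.trans (Int.gcd_dvd_right _ _))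
  refine ⟨x, y, cop x y ?_, cop _ M ?_⟩
  · intro p hp h1 h2
    have m1 := (k1 p hp).1 h1
    have m2 := (k2 p hp).1 h2
    rw [hS1, Finset.mem_filter] at m1
    rw [hS2, Finset.mem_filter] at m2
    exact m2.2 m1.2.1
  · intro p hp h1 h2
    have hpi : Prime (p : ℤ) := Nat.prime_iff_prime_int.1 hp
    have hpM : p ∈ M.natAbs.primeFactors := by
      rw [Nat.mem_primeFactors]
      exact ⟨hp, Int.natCast_dvd.1 h2, Int.natAbs_ne_zero.2 hM⟩
    by_cases ca : (p : ℤ) ∣ a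
    · have hy : ¬ (p : ℤ) ∣ y := by
        rw [k2 p hp, hS2, Finset.mem_filter]
        exact fun h => h.2 ca
      by_cases cc : (p : ℤ) ∣ c
      · have hx : ¬ (p : ℤ) ∣ x := by
          rw [k1 p hp, hS1, Finset.mem_filter]
          exact fun h => h.2.2 cc
        have h3 : (p : ℤ) ∣ b * x * y := by
          have e : b * x * y = (a * x ^ 2 + b * x * y + c * y ^ 2) - a * x ^ 2 - c * y ^ 2 := by ring
          rw [e]
          exact dvd_sub (dvd_sub h1 (Dvd.dvd.mul_right ca _)) (Dvd.dvd.mul_right cc _)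
        rcases hpi.dvd_or_dvd h3 with h4 | h4
        · rcases hpi.dvd_or_dvd h4 with h5 | h5
          · exact hpi.not_isUnit (h p ca h5 cc)
          · exact hx h5
        · exact hy h4
      · have hx : (p : ℤ) ∣ x := by
          rw [k1 p hp, hS1, Finset.mem_filter]
          exact ⟨hpM, ca, cc⟩
        have h3 : (p : ℤ) ∣ c * y ^ 2 := by
          have e : c * y ^ 2 = (a * x ^ 2 + b * x * y + c * y ^ 2) - x * (a * x + b * y) := by ring
          rw [e]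
          exact dvd_sub h1 (Dvd.dvd.mul_right hx _)
        rcases hpi.dvd_or_dvd h3 with h4 | h4
        · exact cc h4
        · exact hy (hpi.dvd_of_dvd_pow h4)
    · have hy : (p : ℤ) ∣ y := by
        rw [k2 p hp, hS2, Finset.mem_filter]
        exact ⟨hpM, ca⟩
      have hx : ¬ (p : ℤ) ∣ x := by
        rw [k1 p hp, hS1, Finset.mem_filter]
        exact fun h => ca h.2.1
      have h3 : (p : ℤ) ∣ a * x ^ 2 := by
        have e : a * x ^ 2 = (a * x ^ 2 + b * x * y + c * y ^ 2) - y * (b * x + c * y) := by ring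
        rw [e]
        exact dvd_sub h1 (Dvd.dvd.mul_right hy _)
      rcases hpi.dvd_or_dvd h3 with h4 | h4
      · exact ca h4
      · exact hx (hpi.dvd_of_dvd_pow h4)

theorem HasForm.exists_coprime (h : HasForm τ a b c) {M : ℤ} (hM : M ≠ 0) :
    ∃ (γ : SL(2, ℤ)) (a' b' c' : ℤ), HasForm ((γ • τ : ℍ) : ℂ) a' b' c' ∧
      b' ^ 2 - 4 * a' * c' = b ^ 2 - 4 * a * c ∧ IsCoprime a' M := by
  obtain ⟨x, y, ⟨p, q, hpq⟩, hxy⟩ := exists_value h.prim hM
  have hdet : (!![p, q; -y, x] : Matrix (Fin 2) (Fin 2) ℤ).det = 1 := by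
    rw [Matrix.det_fin_two_of]
    linear_combination hpq
  set γ : SL(2, ℤ) := ⟨!![p, q; -y, x], hdet⟩ with hγ
  refine ⟨γ, _, _, _, h.smul_form γ, smul_disc γ a b c, ?_⟩
  have e : a * γ.1 1 1 ^ 2 - b * γ.1 1 1 * γ.1 1 0 + c * γ.1 1 0 ^ 2 = a * x ^ 2 + b * x * y + c * y ^ 2 := by
    have e1 : γ.1 1 1 = x := rfl
    have e2 : γ.1 1 0 = -y := rfl
    rw [e1, e2]
    ring
  rw [e]
  exact hxy

theorem HasForm.mul_p (h : HasForm τ a b c) {p : ℕ} (hp : p.Prime) (hpa : (p : ℤ) ∣ a)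
    (hd : ¬ (p : ℤ) ∣ b ^ 2 - 4 * a * c) :
    HasForm ((p : ℂ) * τ) (a / p) b (p * c) ∧ b ^ 2 - 4 * (a / p) * (p * c) = b ^ 2 - 4 * a * c := by
  obtain ⟨k, hk⟩ := hpa
  have hp0 : (p : ℤ) ≠ 0 := by exact_mod_cast hp.ne_zero
  have hpp : (0 : ℤ) < p := by exact_mod_cast hp.pos
  have hka : a / p = k := by rw [hk, Int.mul_ediv_cancel_left _ hp0]
  have hkpos : 0 < k := by
    have := h.pos
    rw [hk] at this
    exact (mul_pos_iff_of_pos_left hpp).1 this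
  rw [hka]
  refine ⟨⟨hkpos, ?_, ?_⟩, by rw [hk]; ring⟩
  · intro d h1 h2 h3
    by_contra hu
    have hd1 : d.natAbs ≠ 1 := fun h0 => hu (Int.isUnit_iff_natAbs_eq.2 h0)
    obtain ⟨l, hl, hld⟩ := Int.exists_prime_and_dvd hd1
    have g1 : l ∣ k := hld.trans h1
    have g2 : l ∣ b := hld.trans h2
    have g3 : l ∣ (p : ℤ) * c := hld.trans h3
    have g4 : l ∣ a := by rw [hk]; exact Dvd.dvd.mul_left g1 _
    rcases hl.dvd_or_dvd g3 with g5 | g5
    · have hpi : Prime (p : ℤ) := Nat.prime_iff_prime_int.1 hp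
      have g6 : Associated l (p : ℤ) := (Prime.dvd_prime_iff_associated hl hpi).1 g5
      have g7 : (p : ℤ) ∣ b := g6.symm.dvd.trans g2
      apply hd
      have e : b ^ 2 - 4 * a * c = b * b - a * (4 * c) := by ring
      rw [e]
      exact dvd_sub (Dvd.dvd.mul_right g7 _) (Dvd.dvd.mul_right ⟨k, hk⟩ _)
    · exact hl.not_isUnit (h.prim l g4 g2 g5)
  · have hr := h.root
    rw [hk] at hr
    push_cast at hr ⊢
    linear_combination (p : ℂ) * hr

theorem HasForm.ext_point (h : HasForm τ a b c) (h' : HasForm τ' a b c')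
    (hd : b ^ 2 - 4 * a * c = b ^ 2 - 4 * a * c') : τ = τ' := by
  have ha := h.apos
  have h1 := h.core.1
  have h2 := h'.core.1
  have h3 := h.im_eq
  have h4 := h'.im_eq
  have h5 : (4 * a * c - b ^ 2 : ℝ) = (4 * a * c' - b ^ 2 : ℝ) := by
    have : 4 * a * c - b ^ 2 = 4 * a * c' - b ^ 2 := by linarith
    exact_mod_cast this
  apply UpperHalfPlane.ext
  apply Complex.ext
  · have : 2 * (a : ℝ) * (τ : ℂ).re = 2 * (a : ℝ) * (τ' : ℂ).re := by linarith
    exact mul_left_cancel₀ (by positivity) this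
  · rw [h3, h4, h5]

theorem finite_disc (Δ : ℤ) : {x : ℂ | ∃ (τ : ℍ) (a b c : ℤ), HasForm τ a b c ∧
    b ^ 2 - 4 * a * c = Δ ∧ x = jInv τ}.Finite := by
  set B : Set (ℤ × ℤ) := Set.Icc (0 : ℤ) (-Δ) ×ˢ Set.Icc (Δ : ℤ) (-Δ) with hB
  have hBf : B.Finite := (Set.finite_Icc _ _).prod (Set.finite_Icc _ _)
  refine Set.Finite.subset (hBf.biUnion (t := fun q => {x : ℂ | ∃ (τ : ℍ) (c : ℤ), HasForm τ q.1 q.2 c ∧
    q.2 ^ 2 - 4 * q.1 * c = Δ ∧ x = jInv τ}) ?_) ?_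
  · intro q _
    apply Set.Subsingleton.finite
    rintro x ⟨τ, c, h1, h2, rfl⟩ y ⟨τ', c', h1', h2', rfl⟩
    rw [h1.ext_point h1' (by rw [h2, h2'])]
  · rintro x ⟨τ, a, b, c, h1, h2, rfl⟩
    obtain ⟨γ, hγ⟩ := ModularGroup.exists_smul_mem_fd τ
    obtain ⟨a', b', c', h3, h4⟩ := h1.smul γ
    rw [h2] at h4
    have ha := h3.apos
    have hre := h3.core.1
    have him := h3.core.2
    have hfr : |((γ • τ : ℍ) : ℂ).re| ≤ 1 / 2 := hγ.2
    have hfn : 1 ≤ Complex.normSq ((γ • τ : ℍ) : ℂ) := hγ.1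
    rw [Complex.normSq_apply] at hfn
    set u := ((γ • τ : ℍ) : ℂ).re
    set v := ((γ • τ : ℍ) : ℂ).im
    have hΔ : (Δ : ℝ) = (b' : ℝ) ^ 2 - 4 * a' * c' := by exact_mod_cast h4.symm
    -- bounds
    have hb1 : |(b' : ℝ)| ≤ a' := by
      have e : (b' : ℝ) = -(2 * a' * u) := by linarith
      rw [e, abs_neg, abs_mul, abs_of_pos (by positivity : (0 : ℝ) < 2 * a')]
      nlinarith
    have hb2 := abs_le.1 hb1
    have hv : 3 ≤ 4 * v ^ 2 := by
      have h5 := abs_le.1 hfr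
      nlinarith
    have h6 : 3 * (a' : ℝ) ^ 2 ≤ -Δ := by
      rw [hΔ]
      have : -((b' : ℝ) ^ 2 - 4 * a' * c') = (2 * a' * v) ^ 2 := by rw [← him]; ring
      rw [this]
      nlinarith [sq_nonneg (a' : ℝ)]
    have ha1 : (1 : ℝ) ≤ a' := by exact_mod_cast h3.pos
    have h7 : (a' : ℝ) ≤ -Δ := by nlinarith
    have h8 : a' ≤ -Δ := by exact_mod_cast h7
    have h9 : -(a' : ℤ) ≤ b' := by exact_mod_cast hb2.1
    have h10 : b' ≤ a' := by exact_mod_cast hb2.2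
    have hpos := h3.pos
    rw [Set.mem_iUnion₂]
    refine ⟨(a', b'), ⟨⟨by omega, by omega⟩, ⟨by show Δ ≤ b'; omega, by show b' ≤ -Δ; omega⟩⟩, γ • τ, c', h3, h4, ?_⟩
    rw [jInv_smul]

theorem HasForm.principal (h : HasForm τ 1 b c) (h' : HasForm τ' 1 b' c')
    (hd : b ^ 2 - 4 * 1 * c = b' ^ 2 - 4 * 1 * c') : jInv τ = jInv τ' := by
  obtain ⟨n, hn⟩ : ∃ n : ℤ, b - b' = 2 * n := by
    have h1 : (b - b') * (b + b') = 4 * (c - c') := by linear_combination hd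
    rcases Int.even_or_odd (b - b') with h2 | h2
    · obtain ⟨m, hm⟩ := h2
      exact ⟨m, by omega⟩
    · exfalso
      have h3 : Odd (b + b') := by
        obtain ⟨m, hm⟩ := h2
        exact ⟨m + b', by omega⟩
      have h4 := h2.mul h3
      rw [h1] at h4
      obtain ⟨m, hm⟩ := h4
      omega
  have h1 := h.core.1
  have h2 := h'.core.1
  have h3 := h.im_eq
  have h4 := h'.im_eq
  have h5 : (4 * ((1 : ℤ) : ℝ) * c - b ^ 2 : ℝ) = (4 * ((1 : ℤ) : ℝ) * c' - b' ^ 2 : ℝ) := by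
    have : 4 * 1 * c - b ^ 2 = 4 * 1 * c' - b' ^ 2 := by linarith
    exact_mod_cast this
  have h6 : τ' = (ModularGroup.T ^ n) • τ := by
    apply UpperHalfPlane.ext
    rw [ModularGroup.coe_T_zpow_smul_eq]
    apply Complex.ext
    · rw [Complex.add_re, Complex.intCast_re]
      have hnr : (b : ℝ) - b' = 2 * n := by exact_mod_cast hn
      push_cast at h1 h2
      linarith
    · rw [Complex.add_im, Complex.intCast_im, add_zero, h3, h4, h5]
  rw [h6, jInv_smul]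

theorem HasForm.integral (h : HasForm τ a b c) : IsIntegral ℤ (jInv τ) :=
  jInv_mem_of_isCM h.isCM

end Pool.Agent.LGO.CK
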