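import Mathlib
import Pool.Agent.LGO.CK.Form
import Pool.Agent.LGO.H.Fin

/-!
# LGO/CK: discriminants of conjugates, sizes

`disc_conj`.  Let `D = 4 a c - b ^ 2 > 0`.  There are integers `x, y` with `y ≠ 0` such that
`N = x ^ 2 + x y b + y ^ 2 a c` (the norm of `x + y a τ`) is not a square and `4 N ≤ D + 9`: replacing `x` we may assume
that `N = x ^ 2 + D / 4` with `y = 1` (`D` divisible by `4`, `x ∈ ℤ`) or `N = (x + 1/2) ^ 2 + D / 4` (`D ≡ 3 mod 4`); take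
`x = 0` or `x = 1`: the two values differ by `1` (`D / 4`, `D / 4 + 1`) resp. by `2`
(`(D + 1) / 4`, `(D + 1) / 4 + 2`), so they are not both squares (two positive squares do not differ by `1`
or `2`).  The matrix of the multiplication by `x + y a τ` on `ℤ τ + ℤ` has determinant `N` and maps `τ` to `τ`
(`Maps`), so `IsogDeg N (j τ) (j τ)`; by `IsogDeg.map` `IsogDeg N (j τ') (j τ')`, so (`isogDeg_iff_maps`, `j_inj`) an
integral matrix `g` of determinant `N` maps `τ'` to `τ'`; it is not scalar because `N` is not a square, so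
`(g 1 0) τ' ^ 2 + (g 1 1 - g 0 0) τ' - g 0 1 = 0` is `m (a', b', c')` with an integer `m ≠ 0`
(`HasForm`: primitive), and `m ^ 2 D' = 4 N - t ^ 2 ≤ 4 N`, `t` = trace.

`cm_size`: `|j(τ)| ≤ C exp (π √D)` because `τ` is equivalent to a reduced point with the same discriminant
(`HasForm.smul`), `Im = √D / (2 a) ≤ √D / 2`, and `norm_j_le` (`LGO/H/JSize.lean`).
`dom_size`: a point with `Im τ' ≥ 1` is equivalent by an integral translation to a reduced point, and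
`exp_im_le`.
-/

namespace Pool.Agent.LGO.CK

open UpperHalfPlane Pool.Agent.Hhelper14.ZP MatrixGroups

variable {τ τ' : ℍ} {a b c a' b' c' : ℤ}

/-- an endomorphism of small degree, not a square -/
theorem Disc_small (h : HasForm τ a b c) : ∃ N : ℕ, 0 < N ∧ (∀ m : ℤ, m ^ 2 ≠ N) ∧
    4 * (N : ℤ) ≤ 4 * a * c - b ^ 2 + 9 ∧ IsogDeg N (jInv τ) (jInv τ) := by
  have hD := h.disc_neg
  have key : ∀ m : ℤ, 0 < m ^ 2 - b * m + a * c →
      IsogDeg (m ^ 2 - b * m + a * c).toNat (jInv τ) (jInv τ) := by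
    intro m hm
    refine ⟨τ, τ, !![m - b, -c; a, m], ?_, ?_, rfl, rfl⟩
    · rw [Int.toNat_of_nonneg hm.le, Matrix.det_fin_two_of]
      ring
    · rw [Maps]
      simp only [Matrix.of_apply, Matrix.cons_val', Matrix.cons_val_zero, Matrix.cons_val_one,
        Matrix.cons_val_fin_one]
      push_cast
      linear_combination h.root
  have sq : ∀ n : ℤ, 0 < n → ∀ d : ℤ, (d = 1 ∨ d = 2) → (∃ m : ℤ, m ^ 2 = n) →
      ∀ m : ℤ, m ^ 2 ≠ n + d := by
    rintro n hn d hd ⟨m, hm⟩ m' hm'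
    wlog h1 : 0 ≤ m generalizing m
    · exact this (-m) (by rw [neg_sq]; exact hm) (by omega)
    wlog h2 : 0 ≤ m' generalizing m'
    · exact this (-m') (by rw [neg_sq]; exact hm') (by omega)
    have h3 : m < m' := by
      by_contra h4
      push Not at h4
      have : m' ^ 2 ≤ m ^ 2 := by nlinarith
      omega
    have h5 : 1 ≤ m := by
      by_contra h6
      have : m = 0 := by omega
      subst this
      simp at hm
      omega
    have h6 : (m + 1) ^ 2 ≤ m' ^ 2 := by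
      have : m + 1 ≤ m' := h3
      nlinarith
    have h7 : m ^ 2 + 2 * m + 1 ≤ m' ^ 2 := by
      have h8 : (m + 1) ^ 2 = m ^ 2 + 2 * m + 1 := by ring
      omega
    rw [hm, hm'] at h7
    rcases hd with hd | hd <;> omega
  -- two candidates
  have two : ∀ m₁ m₂ : ℤ, ∀ d : ℤ, (d = 1 ∨ d = 2) → 0 < m₁ ^ 2 - b * m₁ + a * c →
      m₂ ^ 2 - b * m₂ + a * c = m₁ ^ 2 - b * m₁ + a * c + d →
      4 * (m₂ ^ 2 - b * m₂ + a * c) ≤ 4 * a * c - b ^ 2 + 9 →
      ∃ N : ℕ, 0 < N ∧ (∀ m : ℤ, m ^ 2 ≠ N) ∧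
        4 * (N : ℤ) ≤ 4 * a * c - b ^ 2 + 9 ∧ IsogDeg N (jInv τ) (jInv τ) := by
    intro m₁ m₂ d hd h1 h2 h3
    by_cases hsq : ∃ m : ℤ, m ^ 2 = m₁ ^ 2 - b * m₁ + a * c
    · have h4 := sq _ h1 d hd hsq
      have h5 : 0 < m₂ ^ 2 - b * m₂ + a * c := by omega
      have h6 : (((m₂ ^ 2 - b * m₂ + a * c).toNat : ℕ) : ℤ) = m₂ ^ 2 - b * m₂ + a * c :=
        Int.toNat_of_nonneg h5.le
      refine ⟨_, by omega, ?_, ?_, key m₂ h5⟩
      · intro m
        rw [h6, h2]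
        exact h4 m
      · rw [h6]
        exact h3
    · have h6 : (((m₁ ^ 2 - b * m₁ + a * c).toNat : ℕ) : ℤ) = m₁ ^ 2 - b * m₁ + a * c :=
        Int.toNat_of_nonneg h1.le
      refine ⟨_, by omega, ?_, ?_, key m₁ h1⟩
      · intro m hm
        rw [h6] at hm
        exact hsq ⟨m, hm⟩
      · rw [h6]
        omega
  rcases Int.even_or_odd' b with ⟨k, hk | hk⟩
  · subst hk
    apply two k (k + 1) 1 (Or.inl rfl)
    · nlinarith
    · ring
    · nlinarith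
  · subst hk
    apply two (k + 1) (k + 2) 2 (Or.inr rfl)
    · nlinarith
    · ring
    · nlinarith

theorem Disc_bezout (h : HasForm τ a b c) : ∃ x y z : ℤ, a * x + b * y + c * z = 1 := by
  have h1 := Int.gcd_eq_gcd_ab a b
  have h2 := Int.gcd_eq_gcd_ab (Int.gcd a b : ℤ) c
  have h3 : IsUnit ((Int.gcd (Int.gcd a b : ℤ) c : ℕ) : ℤ) := by
    apply h.prim
    · exact (Int.gcd_dvd_left _ _).trans (Int.gcd_dvd_left _ _)
    · exact (Int.gcd_dvd_left _ _).trans (Int.gcd_dvd_right _ _)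
    · exact Int.gcd_dvd_right _ _
  have h4 : ((Int.gcd (Int.gcd a b : ℤ) c : ℕ) : ℤ) = 1 := by
    rcases Int.isUnit_iff.1 h3 with h5 | h5
    · exact h5
    · omega
  rw [h4] at h2
  refine ⟨Int.gcdA a b * Int.gcdA (Int.gcd a b : ℤ) c, Int.gcdB a b * Int.gcdA (Int.gcd a b : ℤ) c,
    Int.gcdB (Int.gcd a b : ℤ) c, ?_⟩
  rw [h2]
  generalize Int.gcdA (Int.gcd a b : ℤ) c = u
  generalize Int.gcdB (Int.gcd a b : ℤ) c = v
  rw [h1]
  ring

theorem Disc_of_maps (h : HasForm τ a b c) {N : ℕ} (hN : ∀ m : ℤ, m ^ 2 ≠ N)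
    {g : Matrix (Fin 2) (Fin 2) ℤ} (hg : g.det = N) (hm : Maps g τ τ) :
    4 * a * c - b ^ 2 ≤ 4 * (N : ℤ) := by
  have hD := h.disc_neg
  have ha := h.pos
  have hτ := τ.im_pos
  rw [Matrix.det_fin_two] at hg
  rw [Maps] at hm
  set p := g 1 0 with hp
  set q := g 1 1 - g 0 0 with hq
  set r := -g 0 1 with hr
  have e1 : (p : ℂ) * τ ^ 2 + q * τ + r = 0 := by
    rw [hq, hr]
    push_cast
    linear_combination hm
  have e2 : ((a * q - p * b : ℤ) : ℂ) * τ + ((a * r - p * c : ℤ) : ℂ) = 0 := by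
    push_cast
    linear_combination (a : ℂ) * e1 - (p : ℂ) * h.root
  have e3 : a * q = p * b := by
    have h1 := congrArg Complex.im e2
    simp only [Complex.add_im, Complex.mul_im, Complex.intCast_im, Complex.intCast_re, zero_mul,
      add_zero, Complex.zero_im] at h1
    have h2 : ((a * q - p * b : ℤ) : ℝ) = 0 := by
      rcases mul_eq_zero.1 h1 with h3 | h3
      · exact h3
      · exact absurd h3 hτ.ne'
    have h3 : a * q - p * b = 0 := by exact_mod_cast h2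
    omega
  have e4 : a * r = p * c := by
    rw [e3, sub_self] at e2
    have h2 : ((a * r - p * c : ℤ) : ℂ) = 0 := by simpa using e2
    have h3 : a * r - p * c = 0 := by exact_mod_cast h2
    omega
  obtain ⟨x, y, z, hxyz⟩ := Disc_bezout h
  have e5 : p = a * (p * x + q * y + r * z) := by
    linear_combination (-p) * hxyz - y * e3 - z * e4
  set m := p * x + q * y + r * z with hmdef
  have hm0 : m ≠ 0 := by
    intro h0
    rw [h0, mul_zero] at e5
    rw [e5, zero_mul] at e3 e4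
    have h1 : q = 0 := (mul_eq_zero.1 e3).resolve_left ha.ne'
    have h2 : r = 0 := (mul_eq_zero.1 e4).resolve_left ha.ne'
    apply hN (g 0 0)
    have h3 : g 1 1 = g 0 0 := by omega
    have h4 : g 0 1 = 0 := by omega
    rw [← hg, h3, h4]
    ring
  have e6 : q = m * b := by
    apply mul_left_cancel₀ ha.ne'
    rw [e3, e5]
    ring
  have e7 : r = m * c := by
    apply mul_left_cancel₀ ha.ne'
    rw [e4, e5]
    ring
  have e8 : m ^ 2 * (4 * a * c - b ^ 2) = 4 * (N : ℤ) - (g 0 0 + g 1 1) ^ 2 := by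
    have h1 : m ^ 2 * (4 * a * c - b ^ 2) = 4 * p * r - q ^ 2 := by
      rw [e5, e6, e7]
      ring
    rw [h1, ← hg, hq, hr, hp]
    ring
  have e9 : 1 ≤ m ^ 2 := by
    have := sq_pos_of_ne_zero hm0
    omega
  nlinarith [sq_nonneg (g 0 0 + g 1 1)]

theorem disc_conj (h : HasForm τ a b c) (h' : HasForm τ' a' b' c') (σ : ℂ ≃+* ℂ)
    (hσ : σ (jInv τ) = jInv τ') : 4 * a' * c' - b' ^ 2 ≤ 4 * a * c - b ^ 2 + 16 := by
  obtain ⟨N, hN, hsq, hle, hi⟩ := Disc_small h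
  have h1 := IsogDeg.map (σ : ℂ →+* ℂ) hN hi
  have h2 : (σ : ℂ →+* ℂ) (jInv τ) = jInv τ' := hσ
  rw [h2] at h1
  obtain ⟨g, hg, hm⟩ := isogDeg_maps h1
  have := Disc_of_maps h' hsq hg hm
  omega

/-- a conjugate of a singular modulus is a singular modulus -/
theorem conj_form (h : HasForm τ a b c) (σ : ℂ ≃+* ℂ) : ∃ (τ' : ℍ) (a' b' c' : ℤ),
    HasForm τ' a' b' c' ∧ σ (jInv τ) = jInv τ' ∧ 4 * a' * c' - b' ^ 2 ≤ 4 * a * c - b ^ 2 + 16 := by
  obtain ⟨τ', -, hτ'⟩ := exists_red (σ (jInv τ))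
  obtain ⟨N, hN, hsq, hle, hi⟩ := Disc_small h
  have h1 := IsogDeg.map (σ : ℂ →+* ℂ) hN hi
  have h2 : (σ : ℂ →+* ℂ) (jInv τ) = jInv τ' := hτ'.symm
  rw [h2] at h1
  have h3 : IsCMVal (jInv τ') := isCMVal_iff.2 ⟨N, hN, fun m hm => hsq m (by exact_mod_cast hm), h1⟩
  rw [isCMVal_jInv] at h3
  obtain ⟨a', b', c', h'⟩ := exists_form h3
  exact ⟨τ', a', b', c', h', hτ'.symm, disc_conj h h' σ hτ'.symm⟩

theorem cm_size : ∃ C : ℝ, 0 < C ∧ ∀ (τ : ℍ) (a b c : ℤ), HasForm τ a b c →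
    ‖jInv τ‖ ≤ C * Real.exp (Real.pi * √(4 * a * c - b ^ 2 : ℝ)) := by
  obtain ⟨C, hC, hj⟩ := norm_j_le
  refine ⟨C, hC, fun τ a b c h => ?_⟩
  obtain ⟨γ, hγ⟩ := ModularGroup.exists_smul_mem_fd τ
  have hred : Red ((γ • τ : ℍ) : ℂ) := by
    refine ⟨(γ • τ).im_pos, hγ.2, ?_⟩
    have h1 := hγ.1
    rw [Complex.normSq_eq_norm_sq] at h1
    have h2 := norm_nonneg ((γ • τ : ℍ) : ℂ)
    nlinarith
  obtain ⟨a', b', c', h', hd⟩ := h.smul γ
  have h1 := hj _ hred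
  rw [jInv_smul] at h1
  refine h1.trans (mul_le_mul_of_nonneg_left (Real.exp_le_exp.2 ?_) hC.le)
  have h2 := h'.im_eq
  have h3 : (4 * a' * c' - b' ^ 2 : ℝ) = (4 * a * c - b ^ 2 : ℝ) := by
    have h4 : ((b' ^ 2 - 4 * a' * c' : ℤ) : ℝ) = ((b ^ 2 - 4 * a * c : ℤ) : ℝ) := by rw [hd]
    push_cast at h4
    linarith
  rw [h3] at h2
  have h4 : (γ • τ).im = ((γ • τ : ℍ) : ℂ).im := rfl
  rw [h4, h2]
  have h5 : (1 : ℝ) ≤ a' := by exact_mod_cast h'.pos
  have h6 := Real.sqrt_nonneg (4 * a * c - b ^ 2 : ℝ)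
  have h7 : √(4 * a * c - b ^ 2 : ℝ) / (2 * a') ≤ √(4 * a * c - b ^ 2 : ℝ) / 2 := by
    apply div_le_div_of_nonneg_left h6 (by norm_num) (by linarith)
  have := Real.pi_pos
  nlinarith

theorem dom_size : ∃ C : ℝ, 0 < C ∧ ∀ τ : ℍ, 1 ≤ (τ : ℂ).im →
    Real.exp (2 * Real.pi * (τ : ℂ).im) ≤ C * (1 + ‖jInv τ‖) := by
  obtain ⟨C, hC, hj⟩ := exp_im_le
  refine ⟨C, hC, fun τ hτ => ?_⟩
  have h1 : ((ModularGroup.T ^ (-round (τ : ℂ).re) • τ : ℍ) : ℂ) = τ + ((-round (τ : ℂ).re : ℤ) : ℂ) :=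
    ModularGroup.coe_T_zpow_smul_eq _
  have him : ((ModularGroup.T ^ (-round (τ : ℂ).re) • τ : ℍ) : ℂ).im = (τ : ℂ).im := by
    rw [h1]
    simp
  have hre : ((ModularGroup.T ^ (-round (τ : ℂ).re) • τ : ℍ) : ℂ).re = (τ : ℂ).re - round (τ : ℂ).re := by
    rw [h1]
    simp
    ring
  have hred : Red ((ModularGroup.T ^ (-round (τ : ℂ).re) • τ : ℍ) : ℂ) := by
    refine ⟨by rw [him]; linarith, ?_, ?_⟩
    · rw [hre]
      exact abs_sub_round _
    · have h2 := Complex.abs_im_le_norm ((ModularGroup.T ^ (-round (τ : ℂ).re) • τ : ℍ) : ℂ)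
      rw [him, abs_of_nonneg (by linarith)] at h2
      linarith
  have h2 := hj _ hred
  rw [jInv_smul] at h2
  have h3 : (ModularGroup.T ^ (-round (τ : ℂ).re) • τ).im = (τ : ℂ).im := him
  rw [h3] at h2
  exact h2

end Pool.Agent.LGO.CK
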