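import Mathlib
import Pool.Agent.LGO.CK.Form
import Pool.Agent.LGO.Q.Quad
import Pool.Agent.LGO.Q.Loc

/-!
# LGO/CK: a singular modulus is not too close to a fixed algebraic number

`cm_meas`.  Let `j(τ₀) = β` (`j_surj`), `D = 4 a c - b ^ 2`.  Suppose `|j(τ) - β|` is small.  `j_local τ₀`
(`LGO/Q/Loc.lean`) gives `τ₁` with `j(τ₁) = j(τ)` and `|τ₁ - τ₀| ^ m ≤ C |j(τ) - β|`; by `j_inj`
(`LGO/Gal/JInj.lean`) `τ₁ = γ τ`, so `τ₁` has a form `(a₁, b₁, c₁)` with the same discriminant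
(`HasForm.smul`).  If `|τ₁ - τ₀| ≤ Im τ₀ / 2` then `Im τ₁ = √D / (2 a₁) ≥ Im τ₀ / 2` bounds `a₁ ≤ √D / Im τ₀`, and
`b₁ = -2 a₁ Re τ₁`, `c₁ = a₁ |τ₁| ^ 2` are at most `C √D`.  Let `v = a₁ τ₀ ^ 2 + b₁ τ₀ + c₁ = a₁ (τ₀ - τ₁) (τ₀ - conj τ₁)`,
`|v| ≤ C √D |τ₀ - τ₁|`, and `v ≠ 0` because `τ₁ ≠ τ₀` (`j(τ₁) = j(τ) ≠ β`), `Im τ₀ > 0`.
If `β` is not a singular modulus: `quad` (`LGO/Q/Quad.lean`): `QM β`, so `|v| ≥ exp (-(C (log H) ^ C))` with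
`H = C D + 3`.  If `β = j(τ₀)` is a singular modulus: `τ₀` is a root of a fixed integral quadratic polynomial
`(a₀, b₀, c₀)` (`IsCM` is invariant under `SL₂(ℤ)`), `|v| |a₁ conj τ₀ ^ 2 + b₁ conj τ₀ + c₁|` is the absolute value
of a resultant divided by `a₀ ^ 2`: a nonzero integer divided by `a₀ ^ 2` (`v conj v = |v| ^ 2` is a rational number
with denominator dividing `a₀ ^ 2`: express it by `τ₀ + conj τ₀ = - b₀ / a₀`, `τ₀ conj τ₀ = c₀ / a₀`), so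
`|v| ≥ 1 / |a₀|`.
-/

namespace Pool.Agent.LGO.CK

open UpperHalfPlane Pool.Agent.Hhelper14.ZP MatrixGroups

private theorem Meas_root {z : ℂ} (hz : 0 < z.im) {a b c : ℤ}
    (h : (a : ℂ) * z ^ 2 + b * z + c = 0) :
    (b : ℝ) = -2 * a * z.re ∧ (c : ℝ) = a * (z.re ^ 2 + z.im ^ 2) := by
  have hre := congrArg Complex.re h
  have him := congrArg Complex.im h
  simp only [sq, Complex.add_re, Complex.add_im, Complex.mul_re, Complex.mul_im,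
    Complex.intCast_re, Complex.intCast_im, zero_mul, sub_zero, add_zero, Complex.zero_re,
    Complex.zero_im] at hre him
  have h1 : (b : ℝ) = -2 * a * z.re := by
    have h2 : ((b : ℝ) + 2 * a * z.re) * z.im = 0 := by linear_combination him
    rcases mul_eq_zero.1 h2 with h | h
    · linarith
    · exact absurd h hz.ne'
  refine ⟨h1, ?_⟩
  rw [h1] at hre
  linear_combination hre

private theorem Meas_cm {z : ℂ} (hz : 0 < z.im) {a₀ b₀ c₀ : ℤ} (ha : a₀ ≠ 0)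
    (h : (a₀ : ℂ) * z ^ 2 + b₀ * z + c₀ = 0) (a b c : ℤ) (hv : (a : ℂ) * z ^ 2 + b * z + c ≠ 0) :
    1 / |(a₀ : ℝ)| ≤ ‖(a : ℂ) * z ^ 2 + b * z + c‖ := by
  obtain ⟨hb, hc⟩ := Meas_root hz h
  set v : ℂ := (a : ℂ) * z ^ 2 + b * z + c with hvdef
  have hn : ((a ^ 2 * c₀ ^ 2 - a * b * b₀ * c₀ + a * c * (b₀ ^ 2 - 2 * a₀ * c₀) +
      b ^ 2 * a₀ * c₀ - b * c * a₀ * b₀ + c ^ 2 * a₀ ^ 2 : ℤ) : ℝ) = (|(a₀ : ℝ)| * ‖v‖) ^ 2 := by
    rw [mul_pow, sq_abs, Complex.sq_norm, Complex.normSq_apply, hvdef]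
    simp only [sq, Complex.add_re, Complex.add_im, Complex.mul_re, Complex.mul_im,
      Complex.intCast_re, Complex.intCast_im, zero_mul, sub_zero, add_zero]
    push_cast
    rw [hb, hc]
    ring
  have ha' : 0 < |(a₀ : ℝ)| := abs_pos.2 (by exact_mod_cast ha)
  have hpos : 0 < |(a₀ : ℝ)| * ‖v‖ := mul_pos ha' (norm_pos_iff.2 hv)
  have h1 : (1 : ℝ) ≤ (|(a₀ : ℝ)| * ‖v‖) ^ 2 := by
    rw [← hn]
    have h2 : (0 : ℝ) < ((a ^ 2 * c₀ ^ 2 - a * b * b₀ * c₀ + a * c * (b₀ ^ 2 - 2 * a₀ * c₀) +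
      b ^ 2 * a₀ * c₀ - b * c * a₀ * b₀ + c ^ 2 * a₀ ^ 2 : ℤ) : ℝ) := by
      rw [hn]; positivity
    have h3 := Int.cast_pos.1 h2
    exact_mod_cast h3
  have h3 : 1 ≤ |(a₀ : ℝ)| * ‖v‖ := by
    by_contra hlt
    push Not at hlt
    have : (|(a₀ : ℝ)| * ‖v‖) ^ 2 < 1 := pow_lt_one₀ hpos.le hlt two_ne_zero
    linarith
  rw [div_le_iff₀ ha', mul_comm]
  exact h3

private theorem Meas_one_le_log {H : ℝ} (h : 3 ≤ H) : 1 ≤ Real.log H := by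
  rw [Real.le_log_iff_exp_le (by linarith)]
  have := Real.exp_one_lt_d9
  linarith

/-- the lower bound at a fixed point -/
private theorem Meas_low (τ₀ : ℍ) (hβ : IsAlgebraic ℚ (jInv τ₀)) : ∃ C : ℕ,
    ∀ (a b c : ℤ) (H : ℝ), 3 ≤ H → |(a : ℝ)| ≤ H → |(b : ℝ)| ≤ H → |(c : ℝ)| ≤ H →
    (a : ℂ) * (τ₀ : ℂ) ^ 2 + b * (τ₀ : ℂ) + c ≠ 0 →
    Real.exp (-(C * Real.log H ^ C)) ≤ ‖(a : ℂ) * (τ₀ : ℂ) ^ 2 + b * (τ₀ : ℂ) + c‖ := by
  by_cases hcm : IsCM τ₀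
  · obtain ⟨a₀, b₀, c₀, ha, h0⟩ := hcm
    obtain ⟨C, hC⟩ := exists_nat_ge (Real.log |(a₀ : ℝ)|)
    refine ⟨C, fun a b c H hH _ _ _ hv => le_trans ?_ (Meas_cm τ₀.im_pos ha h0 a b c hv)⟩
    have ha' : 0 < |(a₀ : ℝ)| := abs_pos.2 (by exact_mod_cast ha)
    have hL := Meas_one_le_log hH
    have h1 : (C : ℝ) ≤ C * Real.log H ^ C :=
      le_mul_of_one_le_right (Nat.cast_nonneg _) (one_le_pow₀ hL)
    calc Real.exp (-(C * Real.log H ^ C)) ≤ Real.exp (-Real.log |(a₀ : ℝ)|) :=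
          Real.exp_le_exp.2 (by linarith)
      _ = 1 / |(a₀ : ℝ)| := by rw [Real.exp_neg, Real.exp_log ha', one_div]
  · have hq : QM (jInv τ₀) := by
      refine quad hβ fun τ hτ => ?_
      rw [← not_isCMVal_jInv, hτ, not_isCMVal_jInv, nonCM_iff]
      exact hcm
    obtain ⟨C, hC⟩ := hq τ₀ rfl
    refine ⟨C, fun a b c H hH h1 h2 h3 hv => hC a b c H hH h1 h2 h3 ?_⟩
    rintro ⟨rfl, rfl, rfl⟩
    apply hv
    simp

theorem cm_meas {β : ℂ} (hβ : IsAlgebraic ℚ β) : ∃ C : ℕ, 0 < C ∧ ∀ (τ : ℍ) (a b c : ℤ),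
    HasForm τ a b c → jInv τ ≠ β →
    Real.exp (-(C * Real.log (4 * a * c - b ^ 2 + 3 : ℝ) ^ C)) ≤ ‖jInv τ - β‖ := by
  obtain ⟨τ₀, rfl⟩ := Pool.Agent.Hhelper14.ZPL.j_surj β
  obtain ⟨C₀, m, ε, hC₀, hm, hε, hloc⟩ := j_local τ₀
  obtain ⟨C₁, hlow⟩ := Meas_low τ₀ hβ
  set y₀ : ℝ := (τ₀ : ℂ).im with hy₀
  have hy : 0 < y₀ := τ₀.im_pos
  set R : ℝ := ‖(τ₀ : ℂ)‖ + y₀ / 2 with hR
  have hR0 : 0 < R := by positivity
  set K : ℝ := (1 + 2 * R + R ^ 2) / y₀ + 1 with hK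
  have hK1 : 1 ≤ K := by
    rw [hK]
    have : 0 ≤ (1 + 2 * R + R ^ 2) / y₀ := by positivity
    linarith
  set A : ℝ := Real.log K + 1 with hA
  have hA1 : 1 ≤ A := by
    have := Real.log_nonneg hK1
    linarith
  set B : ℝ := Real.log (2 * R + 1) with hB
  have hB0 : 0 ≤ B := Real.log_nonneg (by linarith)
  set E : ℝ := m * (C₁ * A ^ C₁ + A + B) + |Real.log C₀| with hE
  have hE0 : 0 ≤ E := by positivity
  set δ : ℝ := min ε ((y₀ / 2) ^ m / C₀) with hδ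
  have hδ0 : 0 < δ := lt_min hε (by positivity)
  obtain ⟨C₂, hC₂⟩ := exists_nat_ge (max E (-Real.log δ))
  refine ⟨C₂ + C₁ + 1, by omega, ?_⟩
  intro τ a b c hf hne
  set D : ℝ := 4 * a * c - b ^ 2 with hD
  have hD1 : 1 ≤ D := by
    have h1 := hf.disc_neg
    have h2 : (1 : ℤ) ≤ 4 * a * c - b ^ 2 := by omega
    rw [hD]
    exact_mod_cast h2
  set L : ℝ := Real.log (D + 3) with hL
  have hL1 : 1 ≤ L := Meas_one_le_log (by linarith)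
  have hLp : ∀ k : ℕ, 1 ≤ L ^ k := fun k => one_le_pow₀ hL1
  have hbig : ∀ x : ℝ, x ≤ (max E (-Real.log δ)) * L ^ (C₁ + 1) →
      Real.exp (-(((C₂ + C₁ + 1 : ℕ) : ℝ) * L ^ (C₂ + C₁ + 1))) ≤ Real.exp (-x) := by
    intro x hx
    apply Real.exp_le_exp.2
    apply neg_le_neg
    refine hx.trans ?_
    have h1 : (0 : ℝ) ≤ C₂ := Nat.cast_nonneg _
    calc max E (-Real.log δ) * L ^ (C₁ + 1) ≤ C₂ * L ^ (C₁ + 1) := by
          gcongr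
      _ ≤ ((C₂ + C₁ + 1 : ℕ) : ℝ) * L ^ (C₂ + C₁ + 1) := by
          gcongr
          · have : (0 : ℝ) ≤ C₁ := Nat.cast_nonneg _
            linarith
          · omega
  by_cases hsm : ‖jInv τ - jInv τ₀‖ < δ
  swap
  · push Not at hsm
    refine (hbig (-Real.log δ) ?_).trans ?_
    · by_cases hneg : -Real.log δ ≤ 0
      · refine hneg.trans (mul_nonneg (le_max_of_le_left hE0) (by positivity))
      · push Not at hneg
        calc -Real.log δ ≤ -Real.log δ * L ^ (C₁ + 1) := le_mul_of_one_le_right hneg.le (hLp _)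
          _ ≤ _ := by gcongr; exact le_max_right _ _
    · rw [neg_neg, Real.exp_log hδ0]
      exact hsm
  obtain ⟨τ₁, hj₁, hclose⟩ := hloc (jInv τ) (hsm.trans_le (min_le_left _ _))
  have hdist : ‖(τ₁ : ℂ) - (τ₀ : ℂ)‖ ≤ y₀ / 2 := by
    have h1 : ‖(τ₁ : ℂ) - (τ₀ : ℂ)‖ ^ m ≤ (y₀ / 2) ^ m := by
      refine hclose.trans ?_
      have h2 := hsm.le.trans (min_le_right _ _)
      calc C₀ * ‖jInv τ - jInv τ₀‖ ≤ C₀ * ((y₀ / 2) ^ m / C₀) := by gcongr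
        _ = (y₀ / 2) ^ m := by field_simp
    exact le_of_pow_le_pow_left₀ hm.ne' (by positivity) h1
  obtain ⟨γ, hγ⟩ := Gal.j_inj hj₁
  obtain ⟨a₁, b₁, c₁, hf₁, hdisc⟩ := hf.smul γ
  rw [← hγ] at hf₁
  have hD' : (4 * a₁ * c₁ - b₁ ^ 2 : ℝ) = D := by
    have h1 : (4 * a₁ * c₁ - b₁ ^ 2 : ℤ) = 4 * a * c - b ^ 2 := by linarith
    rw [hD]
    exact_mod_cast h1
  have ha₁ : (0 : ℝ) < a₁ := by exact_mod_cast hf₁.pos
  have him : y₀ / 2 ≤ (τ₁ : ℂ).im := by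
    have h1 : |((τ₁ : ℂ) - (τ₀ : ℂ)).im| ≤ y₀ / 2 := (Complex.abs_im_le_norm _).trans hdist
    rw [Complex.sub_im, abs_le] at h1
    linarith [h1.1]
  have hnorm : ‖(τ₁ : ℂ)‖ ≤ R := by
    calc ‖(τ₁ : ℂ)‖ = ‖(τ₀ : ℂ) + ((τ₁ : ℂ) - (τ₀ : ℂ))‖ := by congr 1; ring
      _ ≤ ‖(τ₀ : ℂ)‖ + ‖(τ₁ : ℂ) - (τ₀ : ℂ)‖ := norm_add_le _ _
      _ ≤ R := by rw [hR]; linarith
  set X : ℝ := D + 3 with hX
  have hX4 : 4 ≤ X := by linarith
  have haX : (a₁ : ℝ) ≤ X / y₀ := by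
    have h1 := hf₁.im_eq
    rw [hD'] at h1
    rw [h1, le_div_iff₀ (by positivity)] at him
    rw [le_div_iff₀ hy]
    have h2 : √D ≤ X := by
      calc √D ≤ √(X ^ 2) := Real.sqrt_le_sqrt (by nlinarith)
        _ = X := Real.sqrt_sq (by linarith)
    linarith
  obtain ⟨hb₁, hc₁⟩ := Meas_root τ₁.im_pos hf₁.root
  have hre : |(τ₁ : ℂ).re| ≤ R := (Complex.abs_re_le_norm _).trans hnorm
  have hsq : (τ₁ : ℂ).re ^ 2 + (τ₁ : ℂ).im ^ 2 ≤ R ^ 2 := by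
    have h1 : ‖(τ₁ : ℂ)‖ ^ 2 = (τ₁ : ℂ).re ^ 2 + (τ₁ : ℂ).im ^ 2 := by
      rw [Complex.sq_norm, Complex.normSq_apply]; ring
    rw [← h1]
    gcongr
  have hKX : (1 + 2 * R + R ^ 2) * (X / y₀) ≤ K * X := by
    have e : (1 + 2 * R + R ^ 2) * (X / y₀) = (1 + 2 * R + R ^ 2) / y₀ * X := by ring
    rw [e]
    gcongr
    rw [hK]; linarith
  have hXy : 0 ≤ X / y₀ := by positivity
  have p1 : |(a₁ : ℝ)| ≤ K * X := by
    rw [abs_of_pos ha₁]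
    nlinarith [mul_nonneg hXy hR0.le, mul_nonneg hXy (sq_nonneg R)]
  have p2 : |(b₁ : ℝ)| ≤ K * X := by
    rw [hb₁, abs_mul, abs_mul, abs_neg, abs_two, abs_of_pos ha₁]
    calc 2 * (a₁ : ℝ) * |(τ₁ : ℂ).re| ≤ 2 * (X / y₀) * R := by gcongr
      _ ≤ (1 + 2 * R + R ^ 2) * (X / y₀) := by nlinarith [mul_nonneg hXy (sq_nonneg R)]
      _ ≤ _ := hKX
  have p3 : |(c₁ : ℝ)| ≤ K * X := by
    rw [hc₁, abs_of_nonneg (by positivity)]
    calc (a₁ : ℝ) * ((τ₁ : ℂ).re ^ 2 + (τ₁ : ℂ).im ^ 2) ≤ X / y₀ * R ^ 2 := by gcongr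
      _ ≤ (1 + 2 * R + R ^ 2) * (X / y₀) := by nlinarith [mul_nonneg hXy hR0.le]
      _ ≤ _ := hKX
  set H : ℝ := K * X with hH
  have hH3 : 3 ≤ H := by
    have : X ≤ K * X := le_mul_of_one_le_left (by linarith) hK1
    linarith
  have hfac : (a₁ : ℂ) * (τ₀ : ℂ) ^ 2 + b₁ * (τ₀ : ℂ) + c₁ =
      ((τ₀ : ℂ) - (τ₁ : ℂ)) * (a₁ * ((τ₀ : ℂ) + (τ₁ : ℂ)) + b₁) := by
    linear_combination hf₁.root
  have hv : (a₁ : ℂ) * (τ₀ : ℂ) ^ 2 + b₁ * (τ₀ : ℂ) + c₁ ≠ 0 := by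
    intro h0
    rw [hfac] at h0
    rcases mul_eq_zero.1 h0 with h1 | h1
    · have h2 : (τ₀ : ℂ) = (τ₁ : ℂ) := sub_eq_zero.1 h1
      have h3 : τ₀ = τ₁ := UpperHalfPlane.ext h2
      rw [← h3] at hj₁
      exact hne hj₁.symm
    · have h2 := congrArg Complex.im h1
      simp only [Complex.add_im, Complex.mul_im, Complex.intCast_re, Complex.intCast_im,
        zero_mul, add_zero, Complex.zero_im] at h2
      have h3 : 0 < (a₁ : ℝ) * ((τ₀ : ℂ).im + (τ₁ : ℂ).im) :=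
        mul_pos ha₁ (add_pos τ₀.im_pos τ₁.im_pos)
      linarith
  have hl := hlow a₁ b₁ c₁ H hH3 p1 p2 p3 hv
  have hup : ‖(a₁ : ℂ) * (τ₀ : ℂ) ^ 2 + b₁ * (τ₀ : ℂ) + c₁‖ ≤
      ‖(τ₁ : ℂ) - (τ₀ : ℂ)‖ * (H * (2 * R + 1)) := by
    rw [hfac, norm_mul, norm_sub_rev]
    gcongr
    calc ‖(a₁ : ℂ) * ((τ₀ : ℂ) + (τ₁ : ℂ)) + b₁‖
        ≤ ‖(a₁ : ℂ)‖ * (‖(τ₀ : ℂ)‖ + ‖(τ₁ : ℂ)‖) + ‖(b₁ : ℂ)‖ := by
          refine (norm_add_le _ _).trans ?_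
          rw [norm_mul]
          gcongr
          exact norm_add_le _ _
      _ ≤ H * (R + R) + H := by
          rw [Complex.norm_intCast, Complex.norm_intCast]
          gcongr
          rw [hR]; linarith
      _ = H * (2 * R + 1) := by ring
  -- logarithms
  have hHlog : Real.log H ≤ A * L := by
    rw [hH, Real.log_mul (by linarith) (by linarith), hA]
    have h1 := Real.log_nonneg hK1
    nlinarith
  have hHlog1 : 1 ≤ Real.log H := Meas_one_le_log hH3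
  set Y : ℝ := C₁ * Real.log H ^ C₁ + Real.log H + B with hY
  have hYle : Real.exp (-Y) ≤ ‖(τ₁ : ℂ) - (τ₀ : ℂ)‖ := by
    have h1 : Real.exp (-(C₁ * Real.log H ^ C₁)) ≤
        ‖(τ₁ : ℂ) - (τ₀ : ℂ)‖ * (H * (2 * R + 1)) := hl.trans hup
    have hpos : 0 < H * (2 * R + 1) := by positivity
    have e : Real.exp (-Y) = Real.exp (-(C₁ * Real.log H ^ C₁)) / (H * (2 * R + 1)) := by
      rw [hY, hB, show -(C₁ * Real.log H ^ C₁ + Real.log H + Real.log (2 * R + 1)) =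
        -(C₁ * Real.log H ^ C₁) - Real.log H - Real.log (2 * R + 1) by ring, Real.exp_sub,
        Real.exp_sub, Real.exp_log (by linarith), Real.exp_log (by linarith), div_div]
    rw [e, div_le_iff₀ hpos]
    exact h1
  have hfin : Real.exp (-(m * Y + |Real.log C₀|)) ≤ ‖jInv τ - jInv τ₀‖ := by
    have h1 : Real.exp (-Y) ^ m ≤ C₀ * ‖jInv τ - jInv τ₀‖ := by
      refine le_trans ?_ hclose
      gcongr
    have h2 : Real.exp (-(m * Y + |Real.log C₀|)) ≤ Real.exp (-Y) ^ m / C₀ := by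
      rw [← Real.exp_nat_mul, le_div_iff₀ hC₀]
      calc Real.exp (-(m * Y + |Real.log C₀|)) * C₀
          = Real.exp (-(m * Y + |Real.log C₀|)) * Real.exp (Real.log C₀) := by
            rw [Real.exp_log hC₀]
        _ = Real.exp (-(m * Y + |Real.log C₀|) + Real.log C₀) := by rw [Real.exp_add]
        _ ≤ _ := Real.exp_le_exp.2 (by linarith [le_abs_self (Real.log C₀)])
    refine h2.trans ?_
    rw [div_le_iff₀ hC₀, mul_comm]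
    exact h1
  refine (hbig (m * Y + |Real.log C₀|) ?_).trans hfin
  have hYE : Y ≤ (C₁ * A ^ C₁ + A + B) * L ^ (C₁ + 1) := by
    have h1 : Real.log H ^ C₁ ≤ A ^ C₁ * L ^ C₁ := by
      rw [← mul_pow]
      gcongr
    have h2 : L ^ C₁ ≤ L ^ (C₁ + 1) := pow_le_pow_right₀ hL1 (by omega)
    have h3 : L ≤ L ^ (C₁ + 1) := by
      calc L = L ^ 1 := (pow_one _).symm
        _ ≤ _ := pow_le_pow_right₀ hL1 (by omega)
    have h4 := hLp (C₁ + 1)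
    calc Y ≤ C₁ * (A ^ C₁ * L ^ C₁) + A * L + B := by rw [hY]; gcongr
      _ ≤ C₁ * (A ^ C₁ * L ^ (C₁ + 1)) + A * L ^ (C₁ + 1) + B * L ^ (C₁ + 1) := by
          gcongr
          exact le_mul_of_one_le_right hB0 h4
      _ = _ := by ring
  calc m * Y + |Real.log C₀|
      ≤ m * ((C₁ * A ^ C₁ + A + B) * L ^ (C₁ + 1)) + |Real.log C₀| * L ^ (C₁ + 1) := by
        gcongr
        exact le_mul_of_one_le_right (abs_nonneg _) (hLp _)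
    _ = E * L ^ (C₁ + 1) := by rw [hE]; ring
    _ ≤ _ := by gcongr; exact le_max_left _ _

end Pool.Agent.LGO.CK
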