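import Mathlib
import Pool.Agent.LGO.Mul.Ht

/-!
# LGO/CK: Frobenius automorphisms

`conj_of_kron`.  Let `K` be a number field inside `ℂ`, Galois over `ℚ`, containing `S` (normal closure of
`ℚ(S)` in `ℂ`, or the field generated by all roots of the minimal polynomials), `S'` the finite set of all
conjugates of the elements of `S` (in the ring of integers `O` of `K`), `P = ∏ (x - y)` over `x ≠ y` in `S'`,
`0 ≠ P ∈ O`, `M = |N(P)|`.  Let `p ∤ M` be a prime, `𝔓` a prime ideal of `O` containing `p`; `P ∉ 𝔓` (if `P ∈ 𝔓`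
then `N(P) ∈ 𝔓 ∩ ℤ = p ℤ`; `Algebra.norm` is divisible by the element, or the relative norm of ideals).
By `IsArithFrobAt.exists_of_isInvariant` (`Mathlib/RingTheory/Frobenius.lean`; `G = K ≃ₐ[ℚ] K` acts on `O`, the
invariants are `ℤ`: `IsGaloisGroup` / `Algebra.IsInvariant` instances for rings of integers) there is `σ ∈ G` with
`σ w ≡ w ^ p mod 𝔓` for all `w ∈ O` (`Nat.card (ℤ ⧸ p ℤ) = p`).  Since `(y ^ p - x) (y - x ^ p) ∈ p O ⊆ 𝔓`:
either `y ≡ x ^ p ≡ σ x`, so `y = σ x` (both in `S'`, `P ∉ 𝔓`), or `x ≡ y ^ p ≡ σ y`, so `x = σ y`,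
`y = σ⁻¹ x`.  Every automorphism of `K` extends to `ℂ` (`exists_aut` in `LGO/Mul/Ht.lean`).
-/

namespace Pool.Agent.LGO.CK

open Polynomial NumberField

/-- the prime below a prime ideal which contains the prime number `p` -/
private theorem Frob_card {O : Type*} [CommRing O] {p : ℕ} (hp : p.Prime) (Q : Ideal O)
    [Q.IsPrime] (hpQ : (p : O) ∈ Q) : Nat.card (ℤ ⧸ Q.under ℤ) = p := by
  have hmax : (Ideal.span {(p : ℤ)}).IsMaximal := by
    have h1 : Prime (p : ℤ) := Nat.prime_iff_prime_int.1 hp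
    exact PrincipalIdealRing.isMaximal_of_irreducible h1.irreducible
  have hle : Ideal.span {(p : ℤ)} ≤ Q.under ℤ := by
    rw [Ideal.span_singleton_le_iff_mem]
    change algebraMap ℤ O p ∈ Q
    rw [map_natCast]
    exact hpQ
  have hne : Q.under ℤ ≠ ⊤ := Ideal.IsPrime.ne_top inferInstance
  have h2 : Ideal.span {(p : ℤ)} = Q.under ℤ := hmax.eq_of_le hne hle
  rw [← h2, Nat.card_congr (Int.quotientSpanNatEquivZMod p).toEquiv, Nat.card_zmod]

theorem conj_of_kron (S : Finset ℂ) (hS : ∀ x ∈ S, IsIntegral ℤ x) : ∃ M : ℕ, 0 < M ∧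
    ∀ p : ℕ, p.Prime → ¬ p ∣ M → ∀ x ∈ S, ∀ y ∈ S,
      (∃ z : ℂ, IsIntegral ℤ z ∧ (y ^ p - x) * (y - x ^ p) = p * z) → ∃ σ : ℂ ≃+* ℂ, σ x = y := by
  classical
  set f : ℚ[X] := ∏ x ∈ S, minpoly ℚ x with hf
  have hint : ∀ x ∈ S, IsIntegral ℚ x := fun x hx => (hS x hx).tower_top
  have hf0 : f ≠ 0 := Finset.prod_ne_zero_iff.2 fun x hx => minpoly.ne_zero (hint x hx)
  let K : IntermediateField ℚ ℂ := IntermediateField.adjoin ℚ (f.rootSet ℂ)
  haveI hsf : f.IsSplittingField ℚ K :=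
    IntermediateField.adjoin_rootSet_isSplittingField (IsAlgClosed.splits _)
  haveI : FiniteDimensional ℚ K := Polynomial.IsSplittingField.finiteDimensional K f
  haveI : Normal ℚ K := Normal.of_isSplittingField f
  haveI : IsGalois ℚ K := { }
  haveI : NumberField K := { to_charZero := inferInstance, to_finiteDimensional := inferInstance }
  have hmemK : ∀ x ∈ S, x ∈ K := by
    intro x hx
    refine IntermediateField.subset_adjoin ℚ _ ?_
    rw [Polynomial.mem_rootSet]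
    refine ⟨hf0, ?_⟩
    rw [hf, map_prod]
    exact Finset.prod_eq_zero hx (minpoly.aeval ℚ x)
  -- the elements as algebraic integers of `K`
  have hlift : ∀ x : ℂ, x ∈ K → IsIntegral ℤ x → ∃ X : 𝓞 K, ((X : K) : ℂ) = x := by
    intro x hxK hx
    have h1 : IsIntegral ℤ (⟨x, hxK⟩ : K) :=
      (isIntegral_algebraMap_iff (algebraMap K ℂ).injective).1 hx
    exact ⟨⟨⟨x, hxK⟩, h1⟩, rfl⟩
  have hinj : ∀ X Y : 𝓞 K, ((X : K) : ℂ) = ((Y : K) : ℂ) → X = Y := by
    intro X Y h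
    exact RingOfIntegers.ext (Subtype.ext h)
  have hsm : ∀ (σ : K ≃ₐ[ℚ] K) (X : 𝓞 K), ((σ • X : 𝓞 K) : K) = σ (X : K) := fun σ X => rfl
  -- the product of the differences
  let T : Finset (𝓞 K) := S.attach.image fun x => (hlift x.1 (hmemK _ x.2) (hS _ x.2)).choose
  have hT : ∀ x ∈ S, ∃ X ∈ T, ((X : K) : ℂ) = x := by
    intro x hx
    refine ⟨_, Finset.mem_image_of_mem _ (Finset.mem_attach S ⟨x, hx⟩), ?_⟩
    exact (hlift x (hmemK _ hx) (hS _ hx)).choose_spec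
  let P : 𝓞 K := ∏ σ : K ≃ₐ[ℚ] K, ∏ X ∈ T, ∏ Y ∈ T, if σ • X = Y then 1 else σ • X - Y
  have hP0 : P ≠ 0 := by
    refine Finset.prod_ne_zero_iff.2 fun σ _ => Finset.prod_ne_zero_iff.2 fun X _ =>
      Finset.prod_ne_zero_iff.2 fun Y _ => ?_
    by_cases h : σ • X = Y
    · rw [if_pos h]
      exact one_ne_zero
    · rw [if_neg h]
      exact sub_ne_zero.2 h
  -- its norm
  have hinv : ∀ g : K ≃ₐ[ℚ] K, g • (∏ τ : K ≃ₐ[ℚ] K, τ • P) = ∏ τ : K ≃ₐ[ℚ] K, τ • P := by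
    intro g
    rw [Finset.smul_prod']
    simp_rw [← mul_smul]
    exact Fintype.prod_bijective (fun τ => g * τ) (Group.mulLeft_bijective g) _ _ fun _ => rfl
  obtain ⟨m, hm⟩ := Algebra.IsInvariant.isInvariant (A := ℤ) (B := 𝓞 K) (G := K ≃ₐ[ℚ] K) _ hinv
  have hm0 : m ≠ 0 := by
    rintro rfl
    rw [map_zero] at hm
    have h1 : ∏ τ : K ≃ₐ[ℚ] K, τ • P ≠ 0 := by
      refine Finset.prod_ne_zero_iff.2 fun τ _ => ?_
      intro h2
      apply hP0
      have h3 : τ⁻¹ • (τ • P) = τ⁻¹ • (0 : 𝓞 K) := by rw [h2]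
      rwa [inv_smul_smul, smul_zero] at h3
    exact h1 hm.symm
  refine ⟨m.natAbs, Int.natAbs_pos.2 hm0, ?_⟩
  intro p hp hpm x hx y hy ⟨z, hz, hrel⟩
  haveI := Fact.mk hp
  obtain ⟨X, hXT, hX⟩ := hT x hx
  obtain ⟨Y, hYT, hY⟩ := hT y hy
  have hzK : z ∈ K := by
    have h1 : (p : ℂ) ≠ 0 := Nat.cast_ne_zero.2 hp.ne_zero
    have h2 : z = (y ^ p - x) * (y - x ^ p) / p := by
      rw [hrel, mul_div_cancel_left₀ _ h1]
    rw [h2]
    exact K.div_mem (K.mul_mem (K.sub_mem (pow_mem (hmemK _ hy) _) (hmemK _ hx))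
      (K.sub_mem (hmemK _ hy) (pow_mem (hmemK _ hx) _))) (natCast_mem K p)
  obtain ⟨Z, hZ⟩ := hlift z hzK hz
  have hrel' : (Y ^ p - X) * (Y - X ^ p) = (p : 𝓞 K) * Z := by
    apply hinj
    push_cast
    rw [hX, hY, hZ]
    exact hrel
  -- a prime above `p`
  have hpu : ¬ IsUnit (p : 𝓞 K) := by
    intro hu
    have h1 : IsUnit (algebraMap ℤ (𝓞 K) (p : ℤ)) := by
      rw [map_natCast]
      exact hu
    have h2 : IsUnit (p : ℤ) := by
      obtain ⟨u, hu1⟩ := isUnit_iff_exists_inv.1 hu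
      have h3 : IsIntegral ℤ (algebraMap ℚ K (1 / (p : ℚ))) := by
        have h4 : algebraMap ℚ K (1 / (p : ℚ)) = (u : K) := by
          have h5 : (p : K) * (u : K) = 1 := by
            have := congrArg (fun w : 𝓞 K => (w : K)) hu1
            push_cast at this
            exact this
          have h6 : (p : K) ≠ 0 := Nat.cast_ne_zero.2 hp.ne_zero
          rw [map_div₀, map_one, map_natCast, div_eq_iff h6, mul_comm]
          exact h5.symm
        rw [h4]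
        exact u.isIntegral_coe
      have h4 : IsIntegral ℤ (1 / (p : ℚ)) :=
        (isIntegral_algebraMap_iff (algebraMap ℚ K).injective).1 h3
      obtain ⟨k, hk⟩ := IsIntegrallyClosed.isIntegral_iff.1 h4
      rw [isUnit_iff_exists_inv]
      refine ⟨k, ?_⟩
      have h5 : (p : ℚ) ≠ 0 := Nat.cast_ne_zero.2 hp.ne_zero
      have h6 : (p : ℚ) * k = 1 := by
        have : (k : ℚ) = 1 / p := hk
        rw [this, mul_one_div_cancel h5]
      exact_mod_cast h6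
    exact (Nat.prime_iff_prime_int.1 hp).not_unit h2
  obtain ⟨Q, hQ, hle⟩ := Ideal.exists_le_maximal (Ideal.span {(p : 𝓞 K)})
    (fun h => hpu (Ideal.span_singleton_eq_top.1 h))
  have hpQ : (p : 𝓞 K) ∈ Q := hle (Ideal.mem_span_singleton_self _)
  haveI := hQ.isPrime
  have hPQ : P ∉ Q := by
    intro h
    have h1 : (∏ τ : K ≃ₐ[ℚ] K, τ • P) ∈ Q := by
      rw [← Finset.mul_prod_erase Finset.univ (fun τ : K ≃ₐ[ℚ] K => τ • P)
        (Finset.mem_univ (1 : K ≃ₐ[ℚ] K)), one_smul]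
      exact Q.mul_mem_right _ h
    rw [← hm] at h1
    have h2 : IsCoprime (p : ℤ) m := by
      rw [Int.isCoprime_iff_gcd_eq_one]
      have h3 : Nat.Coprime p m.natAbs := (Nat.Prime.coprime_iff_not_dvd hp).2 hpm
      simpa [Int.gcd] using h3
    obtain ⟨a, b, hab⟩ := h2
    apply hQ.ne_top
    rw [Ideal.eq_top_iff_one]
    have h3 : algebraMap ℤ (𝓞 K) (a * p + b * m) ∈ Q := by
      rw [map_add, map_mul, map_mul]
      refine Q.add_mem (Q.mul_mem_left _ ?_) (Q.mul_mem_left _ h1)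
      rw [map_natCast]
      exact hpQ
    rwa [hab, map_one] at h3
  have hdiff : ∀ σ : K ≃ₐ[ℚ] K, ∀ A ∈ T, ∀ B ∈ T, σ • A - B ∈ Q → σ • A = B := by
    intro σ A hA B hB h
    by_contra hne
    apply hPQ
    have h1 : (∏ C ∈ T, if σ • A = C then (1 : 𝓞 K) else σ • A - C) ∈ Q := by
      rw [← Finset.mul_prod_erase T _ hB, if_neg hne]
      exact Q.mul_mem_right _ h
    have h2 : (∏ D ∈ T, ∏ C ∈ T, if σ • D = C then (1 : 𝓞 K) else σ • D - C) ∈ Q := by
      rw [← Finset.mul_prod_erase T _ hA]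
      exact Q.mul_mem_right _ h1
    change (∏ σ : K ≃ₐ[ℚ] K, ∏ X ∈ T, ∏ Y ∈ T, if σ • X = Y then (1 : 𝓞 K) else σ • X - Y) ∈ Q
    rw [← Finset.mul_prod_erase Finset.univ _ (Finset.mem_univ σ)]
    exact Q.mul_mem_right _ h2
  obtain ⟨σ, hσ⟩ := IsArithFrobAt.exists_of_isInvariant ℤ (K ≃ₐ[ℚ] K) Q
  have hfr : ∀ w : 𝓞 K, σ • w - w ^ p ∈ Q := by
    intro w
    have h1 := hσ w
    rw [Frob_card hp Q hpQ] at h1
    exact h1
  -- the conjugation
  have hconj : ∃ τ : K ≃ₐ[ℚ] K, τ • X = Y := by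
    have h1 : (Y ^ p - X) * (Y - X ^ p) ∈ Q := by
      rw [hrel']
      exact Q.mul_mem_right _ hpQ
    rcases (hQ.isPrime.mem_or_mem h1) with h2 | h2
    · refine ⟨σ⁻¹, ?_⟩
      have h3 : σ • Y = X := by
        refine hdiff σ Y hYT X hXT ?_
        have h4 := Q.add_mem (hfr Y) h2
        have h5 : σ • Y - Y ^ p + (Y ^ p - X) = σ • Y - X := by ring
        rwa [h5] at h4
      rw [← h3, inv_smul_smul]
    · refine ⟨σ, hdiff σ X hXT Y hYT ?_⟩
      have h4 := Q.sub_mem (hfr X) h2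
      have h5 : σ • X - X ^ p - (Y - X ^ p) = σ • X - Y := by ring
      rwa [h5] at h4
  obtain ⟨τ, hτ⟩ := hconj
  obtain ⟨s, hs⟩ := exists_aut K ((algebraMap K ℂ).comp (τ : K →+* K))
  refine ⟨s, ?_⟩
  rw [← hX, hs, ← hY, ← hτ, hsm]
  rfl

end Pool.Agent.LGO.CK
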