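import Mathlib
import Pool.Agent.Hhelper14.ZP.Integral
import Pool.Agent.ZPS.Series

/-!
# LGO/CK: Kronecker's congruence at a point

`frob_Z`: modulo `p` the `p`-th power of a power series `F(X)` is `F(X ^ p)`: map to `PowerSeries (ZMod p)`,
there `MvPowerSeries.map_frobenius_expand`; the difference has all coefficients divisible by `p`.

`good_J`: `J(q) = q j(τ)` has a power series `JZ` with INTEGRAL coefficients (`evZ_J`, `spec_series` in
`Pool/Agent/ZPS/Series.lean`) which converges on the unit disc: `EvZ` at all points `q(τ)` (these are all points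
of the punctured unit disc, `exists_qParam` in `ZP/JFun.lean`), so it is the power series of the function
`J z = ∑ coeff n JZ z ^ n`.  `E` = the function of the series `E` of `frob_Z p JZ`; it converges on the unit disc
because `(J(z ^ p) - J(z) ^ p) / p` does.  `J z ^ p = J (z ^ p) - p E z`.

`kron` (Kronecker).  For `A ∈ DD p` put `h_A(τ) = (j_A(τ) ^ p - j(τ)) (j_A(τ) - j(τ) ^ p)`.  Claim: `h_A / p ∈ RR p`
(integral expansion in `z = q_p = exp (2 π i τ / p)`).  It is enough to consider representatives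
(`exists_rep`, `jA_smul`: `a d = p`, so `(a, d) = (p, 1)` or `(1, p)`).
Case `a = p, d = 1`: `j_A(τ) = j(p τ + b) = J(z ^ (p ^ 2)) / z ^ (p ^ 2)`, `j(τ) = J(z ^ p) / z ^ p` and
`(j_A - j ^ p) / p = (J((z ^ p) ^ p) - J(z ^ p) ^ p) / (p z ^ (p ^ 2)) = E(z ^ p) / z ^ (p ^ 2)`.
Case `a = 1, d = p`: `j_A(τ) = J(c z) / (c z)` with `c ^ p = 1`, and
`(j_A ^ p - j) / p = (J(c z) ^ p - J((c z) ^ p)) / (p z ^ p) = - E(c z) / z ^ p` (`c` is an algebraic integer,
`Good.comp_mul`).
The polynomial `∏_q (Z - h_q / p)` over the orbits `q ∈ QQ p` has coefficients in `RR p` which are invariant under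
`SL₂(ℤ)` (as in `charP_inv`: `jQ_rQ`, `jInv_smul`, `rQ_bijective`), so they are integral polynomials in `j`
(`exists_poly_of_mem`); so `h_B(τ) / p` is a root of a monic polynomial with coefficients in
`OO[j(τ)] = OO`, so it is in `OO` (as in `modular_eq` and `jInv_mem_of_fixed`).
-/

namespace Pool.Agent.LGO.CK

open UpperHalfPlane Pool.Agent.Hhelper14.ZP
open scoped Manifold MatrixGroups

theorem frob_Z {p : ℕ} (hp : p.Prime) (F : PowerSeries ℤ) : ∃ E : PowerSeries ℤ,
    F ^ p = PowerSeries.expand p hp.ne_zero F - (p : PowerSeries ℤ) * E := by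
  have : Fact p.Prime := ⟨hp⟩
  have h1 : PowerSeries.map (Int.castRingHom (ZMod p)) (F ^ p) =
      PowerSeries.map (Int.castRingHom (ZMod p)) (PowerSeries.expand p hp.ne_zero F) := by
    rw [map_pow, PowerSeries.map_expand]
    have h2 := MvPowerSeries.map_frobenius_expand (σ := Unit) p hp.ne_zero
      (f := PowerSeries.map (Int.castRingHom (ZMod p)) F)
    rw [ZMod.frobenius_zmod, MvPowerSeries.map_id] at h2
    exact h2.symm
  have h2 : ∀ n, (p : ℤ) ∣ PowerSeries.coeff n (PowerSeries.expand p hp.ne_zero F - F ^ p) := by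
    intro n
    have h3 := congrArg (PowerSeries.coeff n) h1
    rw [PowerSeries.coeff_map, PowerSeries.coeff_map] at h3
    rw [← ZMod.intCast_zmod_eq_zero_iff_dvd, map_sub]
    push_cast
    have h4 : ((PowerSeries.coeff n (F ^ p) : ℤ) : ZMod p) =
      ((PowerSeries.coeff n (PowerSeries.expand p hp.ne_zero F) : ℤ) : ZMod p) := h3
    rw [h4, sub_self]
  choose e he using h2
  refine ⟨PowerSeries.mk e, ?_⟩
  ext n
  have h3 := he n
  rw [map_sub] at h3
  have h4 : PowerSeries.coeff n ((p : PowerSeries ℤ) * PowerSeries.mk e) = p * e n := by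
    have h5 : (p : PowerSeries ℤ) = PowerSeries.C (p : ℤ) := by simp
    rw [h5, PowerSeries.coeff_C_mul, PowerSeries.coeff_mk]
  rw [map_sub, h4]
  linarith

/-- an integral power series as a complex one -/
private noncomputable def Kron_m (F : PowerSeries ℤ) : PowerSeries ℂ :=
  PowerSeries.map (Int.castRingHom ℂ) F

private theorem Kron_ev (z : ℂ) (hz : ‖z‖ < 1) : ∃ v, Ev z (Kron_m Pool.Agent.ZPS.JZ) v := by
  rcases eq_or_ne z 0 with rfl | h0
  · refine ⟨PowerSeries.coeff 0 (Kron_m Pool.Agent.ZPS.JZ), ?_, ?_⟩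
    · exact summable_of_ne_finset_zero (s := {0}) fun n hn => by
        rw [zero_pow (by simpa using hn), mul_zero, norm_zero]
    · have := hasSum_single (f := fun n => PowerSeries.coeff n (Kron_m Pool.Agent.ZPS.JZ) * (0 : ℂ) ^ n) 0
        (fun n hn => by rw [zero_pow hn, mul_zero])
      simpa using this
  · obtain ⟨τ, rfl⟩ := exists_qParam hz h0
    exact ⟨_, Pool.Agent.ZPS.evZ_J τ⟩

theorem good_J {p : ℕ} (hp : p.Prime) : ∃ J E : ℂ → ℂ, Good OO J ∧ Good OO E ∧ J 0 = 1 ∧
    (∀ τ : ℍ, jInv τ * Function.Periodic.qParam 1 (τ : ℂ) = J (Function.Periodic.qParam 1 (τ : ℂ))) ∧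
    ∀ z : ℂ, ‖z‖ < 1 → J z ^ p = J (z ^ p) - p * E z := by
  obtain ⟨E, hE⟩ := frob_Z hp Pool.Agent.ZPS.JZ
  have hp0 : (p : ℂ) ≠ 0 := by exact_mod_cast hp.ne_zero
  set J : ℂ → ℂ := fun z => ∑' n, PowerSeries.coeff n (Kron_m Pool.Agent.ZPS.JZ) * z ^ n with hJ
  have hJev : ∀ z : ℂ, ‖z‖ < 1 → Ev z (Kron_m Pool.Agent.ZPS.JZ) (J z) := by
    intro z hz
    obtain ⟨v, hv⟩ := Kron_ev z hz
    have h1 : J z = v := hv.2.tsum_eq
    rw [h1]
    exact hv
  have hO : ∀ (F : PowerSeries ℤ) (n : ℕ), PowerSeries.coeff n (Kron_m F) ∈ OO := by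
    intro F n
    have h1 : PowerSeries.coeff n (Kron_m F) = ((PowerSeries.coeff n F : ℤ) : ℂ) := by
      simp [Kron_m]
    rw [h1]
    exact intCast_mem_OO _
  have hEev : ∀ z : ℂ, ‖z‖ < 1 → Ev z (Kron_m E) ((p : ℂ)⁻¹ * (J (z ^ p) - J z ^ p)) := by
    intro z hz
    have hzp : ‖z ^ p‖ < 1 := by
      rw [norm_pow]
      exact pow_lt_one₀ (norm_nonneg z) hz hp.ne_zero
    have h1 : Ev z (powComp 1 p (Kron_m Pool.Agent.ZPS.JZ)) (J (z ^ p)) := by
      refine Ev.powComp hp.pos ?_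
      rw [one_mul]
      exact hJev _ hzp
    have h2 := (h1.sub ((hJev z hz).pow p))
    have h3 := (Ev.C z ((p : ℂ)⁻¹)).mul h2
    have h4 : PowerSeries.C ((p : ℂ)⁻¹) * (powComp 1 p (Kron_m Pool.Agent.ZPS.JZ) -
        Kron_m Pool.Agent.ZPS.JZ ^ p) = Kron_m E := by
      have h5 : Kron_m Pool.Agent.ZPS.JZ ^ p = powComp 1 p (Kron_m Pool.Agent.ZPS.JZ) -
          PowerSeries.C (p : ℂ) * Kron_m E := by
        have h6 := congrArg (PowerSeries.map (Int.castRingHom ℂ)) hE
        rw [map_pow, map_sub, PowerSeries.map_expand, map_mul, map_natCast] at h6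
        have h7 : PowerSeries.expand p hp.ne_zero (PowerSeries.map (Int.castRingHom ℂ) Pool.Agent.ZPS.JZ) =
            powComp 1 p (Kron_m Pool.Agent.ZPS.JZ) := by
          ext n
          rw [PowerSeries.coeff_expand, powComp, PowerSeries.coeff_mk]
          simp only [one_pow, mul_one]
          rfl
        rw [h7] at h6
        have h8 : (p : PowerSeries ℂ) = PowerSeries.C (p : ℂ) := by simp
        rw [h8] at h6
        exact h6
      rw [h5, sub_sub_cancel, ← mul_assoc, ← map_mul, inv_mul_cancel₀ hp0, map_one, one_mul]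
    rw [h4] at h3
    exact h3
  refine ⟨J, fun z => (p : ℂ)⁻¹ * (J (z ^ p) - J z ^ p),
    ⟨fun n => PowerSeries.coeff n (Kron_m Pool.Agent.ZPS.JZ), hO _, fun z hz => (hJev z hz).2⟩,
    ⟨fun n => PowerSeries.coeff n (Kron_m E), hO _, fun z hz => (hEev z hz).2⟩, ?_, ?_, ?_⟩
  · have h1 := (hJev 0 (by simp)).2
    have h2 := hasSum_single (f := fun n => PowerSeries.coeff n (Kron_m Pool.Agent.ZPS.JZ) * (0 : ℂ) ^ n) 0
        (fun n hn => by rw [zero_pow hn, mul_zero])
    rw [h1.unique h2]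
    have h3 := Pool.Agent.ZPS.spec_series.1
    have h4 : PowerSeries.coeff 0 (Kron_m Pool.Agent.ZPS.JZ) =
        ((PowerSeries.coeff 0 Pool.Agent.ZPS.JZ : ℤ) : ℂ) := by
      simp [Kron_m]
    rw [h4, h3]
    simp
  · intro τ
    have h1 := Pool.Agent.ZPS.evZ_J τ
    have h2 := hJev _ (norm_qParam_lt τ)
    rw [mul_comm]
    exact h1.unique h2
  · intro z hz
    rw [← mul_assoc, mul_inv_cancel₀ hp0, one_mul]
    ring

/-- the functions of Kronecker's congruence -/
private noncomputable def Kron_h {p : ℕ} (hp : p.Prime) (f : ℍ → ℂ) (τ : ℍ) : ℂ :=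
  (p : ℂ)⁻¹ * ((f τ ^ p - jInv τ) * (f τ - jInv τ ^ p))

private theorem Kron_j_mem {p : ℕ} (hp : p.Prime) : jInv ∈ RR p := by
  obtain ⟨J, hJ, hJ0, hJτ⟩ := exists_J
  refine ⟨jInv_mdiff, p, _, fun z => J (z ^ p), hJ.comp_pow hp.pos, rfl, fun τ => ?_⟩
  dsimp only
  rw [qN_pow hp.pos, hJτ]

private theorem Kron_mem_rep {p : ℕ} (hp : p.Prime) {B : DD p} (hB : B ∈ FixedDetMatrices.reps (p : ℤ)) :
    Kron_h hp (jA hp.pos B) ∈ RR p := by
  obtain ⟨J, E, hJ, hE, hJ0, hJτ, hJE⟩ := good_J hp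
  have hp0 : (p : ℂ) ≠ 0 := by exact_mod_cast hp.ne_zero
  have hj := Kron_j_mem hp
  have hA : jA hp.pos B ∈ RR p := by
    have h1 := jQ_mem hp.pos (Quotient.mk'' B)
    rwa [jQ_mk] at h1
  have hx1 : (fun τ : ℍ => jA hp.pos B τ ^ p - jInv τ) ∈ RR p := (RR p).sub_mem ((RR p).pow_mem hA p) hj
  have hx2 : (fun τ : ℍ => jA hp.pos B τ - jInv τ ^ p) ∈ RR p := (RR p).sub_mem hA ((RR p).pow_mem hj p)
  have hq0 : ∀ τ : ℍ, qN p τ ≠ 0 := fun τ => qN_ne_zero p τ
  have hqp : ∀ τ : ℍ, qN p τ ^ p = Function.Periodic.qParam 1 (τ : ℂ) := fun τ => qN_pow hp.pos τ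
  have hjτ : ∀ τ : ℍ, jInv τ * qN p τ ^ p = J (qN p τ ^ p) := by
    intro τ
    rw [hqp, hJτ]
  obtain ⟨a, d, b, ha, hd, had, hact⟩ := rep_shape hp.pos hB
  rcases (Nat.dvd_prime hp).1 ⟨d, had.symm⟩ with h1 | h1
  · -- `a = 1`, `d = p`
    have hdp : d = p := by rw [h1, one_mul] at had; exact had
    set c : ℂ := Complex.exp (2 * Real.pi * Complex.I * b / p) with hc
    have hcp : c ^ p = 1 := by
      rw [hc, ← Complex.exp_nat_mul]
      have : (p : ℂ) * (2 * Real.pi * Complex.I * b / p) = b * (2 * Real.pi * Complex.I) := by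
        field_simp
      rw [this, Complex.exp_int_mul_two_pi_mul_I]
    have hcO : c ∈ OO := by
      change IsIntegral ℤ _
      refine IsIntegral.of_pow hp.pos ?_
      rw [hcp]
      exact isIntegral_one
    have hcn : ‖c‖ = 1 := by
      have h2 : ‖c‖ ^ p = 1 := by rw [← norm_pow, hcp, norm_one]
      exact (pow_eq_one_iff_of_nonneg (norm_nonneg _) hp.ne_zero).1 h2
    have hc0 : c ≠ 0 := Complex.exp_ne_zero _
    have hqa : ∀ τ : ℍ, Function.Periodic.qParam 1 (act hp.pos B τ : ℂ) = c * qN p τ := by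
      intro τ
      rw [hact, hc]
      simp only [qN, Function.Periodic.qParam]
      rw [← Complex.exp_add]
      congr 1
      rw [h1, hdp]
      push_cast
      field_simp
      ring
    have key : (fun τ : ℍ => (p : ℂ)⁻¹ * (jA hp.pos B τ ^ p - jInv τ)) ∈ RR p := by
      refine ⟨hx1.1.const_smul ((p : ℂ)⁻¹), p, _, fun z => -E (c * z), (hE.comp_mul hcO hcn.le).neg, rfl,
        fun τ => ?_⟩
      dsimp only
      set z := qN p τ with hz
      have hzn : ‖c * z‖ < 1 := by
        rw [norm_mul, hcn, one_mul]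
        exact norm_qN_lt hp.pos τ
      have h2 := hJτ (act hp.pos B τ)
      rw [hqa τ] at h2
      have h3 := hJE (c * z) hzn
      rw [← h2, mul_pow, mul_pow, hcp, one_mul] at h3
      have h4 := hjτ τ
      rw [← h4] at h3
      have h5 : (jA hp.pos B τ ^ p - jInv τ) * z ^ p = -(p * E (c * z)) := by
        unfold jA
        linear_combination h3
      rw [mul_assoc, h5]
      field_simp
    have h6 := (RR p).mul_mem key hx2
    have h7 : Kron_h hp (jA hp.pos B) = (fun τ : ℍ => (p : ℂ)⁻¹ * (jA hp.pos B τ ^ p - jInv τ)) *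
        (fun τ : ℍ => jA hp.pos B τ - jInv τ ^ p) := by
      funext τ
      simp only [Kron_h, Pi.mul_apply]
      ring
    rw [h7]
    exact h6
  · -- `a = p`, `d = 1`
    have hd1 : d = 1 := by
      rw [h1] at had
      exact Nat.eq_of_mul_eq_mul_left hp.pos (had.trans (mul_one p).symm)
    have hqa : ∀ τ : ℍ, Function.Periodic.qParam 1 (act hp.pos B τ : ℂ) = (qN p τ ^ p) ^ p := by
      intro τ
      rw [hact, hqp]
      simp only [Function.Periodic.qParam]
      rw [← Complex.exp_nat_mul, h1, hd1]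
      have h2 : (2 * Real.pi * Complex.I * (((p : ℕ) * (τ : ℂ) + b) / ((1 : ℕ) : ℂ)) / ((1 : ℝ) : ℂ)) =
          (p : ℂ) * (2 * Real.pi * Complex.I * (τ : ℂ) / ((1 : ℝ) : ℂ)) + b * (2 * Real.pi * Complex.I) := by
        push_cast
        ring
      rw [h2, Complex.exp_add, Complex.exp_int_mul_two_pi_mul_I, mul_one]
    have key : (fun τ : ℍ => (p : ℂ)⁻¹ * (jA hp.pos B τ - jInv τ ^ p)) ∈ RR p := by
      refine ⟨hx2.1.const_smul ((p : ℂ)⁻¹), p * p, _, fun z => E (z ^ p), hE.comp_pow hp.pos, rfl,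
        fun τ => ?_⟩
      dsimp only
      have hzn : ‖qN p τ ^ p‖ < 1 := by
        rw [hqp]
        exact norm_qParam_lt τ
      have h2 := hJτ (act hp.pos B τ)
      rw [hqa τ] at h2
      have h3 := hJE (qN p τ ^ p) hzn
      have h4 := hjτ τ
      rw [← h2, ← h4, mul_pow] at h3
      have h5 : (jA hp.pos B τ - jInv τ ^ p) * qN p τ ^ (p * p) = p * E (qN p τ ^ p) := by
        rw [pow_mul]
        unfold jA
        linear_combination -h3
      rw [mul_assoc, h5]
      field_simp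
    have h6 := (RR p).mul_mem hx1 key
    have h7 : Kron_h hp (jA hp.pos B) = (fun τ : ℍ => jA hp.pos B τ ^ p - jInv τ) *
        (fun τ : ℍ => (p : ℂ)⁻¹ * (jA hp.pos B τ - jInv τ ^ p)) := by
      funext τ
      simp only [Kron_h, Pi.mul_apply]
      ring
    rw [h7]
    exact h6

private theorem Kron_mem {p : ℕ} (hp : p.Prime) (q : QQ p) : Kron_h hp (jQ hp.pos q) ∈ RR p := by
  induction q using Quotient.inductionOn' with
  | h A =>
    obtain ⟨B, hB, γ, rfl⟩ := exists_rep hp.pos A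
    rw [jQ_mk, jA_smul]
    exact Kron_mem_rep hp hB

/-- the polynomial of Kronecker's functions -/
private noncomputable def Kron_P {p : ℕ} (hp : p.Prime) [Fintype (QQ p)] : Polynomial (RR p) :=
  ∏ q : QQ p, (Polynomial.X - Polynomial.C ⟨Kron_h hp (jQ hp.pos q), Kron_mem hp q⟩)

private theorem Kron_P_map {p : ℕ} (hp : p.Prime) [Fintype (QQ p)] (τ : ℍ) :
    (Kron_P hp).map (evalAt p τ) = ∏ q : QQ p, (Polynomial.X - Polynomial.C (Kron_h hp (jQ hp.pos q) τ)) := by
  rw [Kron_P, Polynomial.map_prod]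
  refine Finset.prod_congr rfl fun q _ => ?_
  rw [Polynomial.map_sub, Polynomial.map_X, Polynomial.map_C]
  rfl

private theorem Kron_P_inv {p : ℕ} (hp : p.Prime) [Fintype (QQ p)] (γ : SL(2, ℤ)) (τ : ℍ) :
    (Kron_P hp).map (evalAt p (γ • τ)) = (Kron_P hp).map (evalAt p τ) := by
  rw [Kron_P_map, Kron_P_map]
  have h := Function.Bijective.prod_comp (rQ_bijective hp.pos γ)
    (fun q => (Polynomial.X - Polynomial.C (Kron_h hp (jQ hp.pos q) τ)))
  rw [← h]
  refine Finset.prod_congr rfl fun q _ => ?_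
  unfold Kron_h
  rw [jQ_rQ, jInv_smul]

private theorem Kron_P_coeff {p : ℕ} (hp : p.Prime) [Fintype (QQ p)] (k : ℕ) :
    ∃ P : Polynomial OO, ∀ τ : ℍ, evalAt p τ ((Kron_P hp).coeff k) = P.eval₂ OO.subtype (jInv τ) := by
  refine exists_poly_of_mem hp.pos ((Kron_P hp).coeff k).2 fun γ τ => ?_
  have h := congrArg (fun p => p.coeff k) (Kron_P_inv hp γ τ)
  simp only [Polynomial.coeff_map] at h
  exact h

/-- **Kronecker's congruence** for the values -/
theorem kron {p : ℕ} (hp : p.Prime) (B : DD p) (τ : ℍ) (hx : jInv τ ∈ OO) :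
    ∃ z ∈ OO, (jA hp.pos B τ ^ p - jInv τ) * (jA hp.pos B τ - jInv τ ^ p) = p * z := by
  have hp0 : (p : ℂ) ≠ 0 := by exact_mod_cast hp.ne_zero
  have := finite_QQ hp.pos
  have : Fintype (QQ p) := Fintype.ofFinite _
  refine ⟨Kron_h hp (jA hp.pos B) τ, ?_, ?_⟩
  · -- the root of a monic polynomial over the integers
    have hcoef : ∀ k, evalAt p τ ((Kron_P hp).coeff k) ∈ OO := by
      intro k
      obtain ⟨P, hP⟩ := Kron_P_coeff hp k
      rw [hP τ, Polynomial.eval₂_eq_sum_range]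
      exact OO.sum_mem fun i _ => OO.mul_mem (P.coeff i).2 (OO.pow_mem hx i)
    have hmon : (Kron_P hp).Monic := Polynomial.monic_prod_of_monic _ _ fun q _ => Polynomial.monic_X_sub_C _
    have hmon2 : ((Kron_P hp).map (evalAt p τ)).Monic := hmon.map _
    have hroot : ((Kron_P hp).map (evalAt p τ)).eval (Kron_h hp (jA hp.pos B) τ) = 0 := by
      rw [Kron_P_map, Polynomial.eval_prod]
      refine Finset.prod_eq_zero (Finset.mem_univ (Quotient.mk'' B)) ?_
      rw [Polynomial.eval_sub, Polynomial.eval_X, Polynomial.eval_C, jQ_mk, sub_self]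
    have hlift : (Kron_P hp).map (evalAt p τ) ∈ Polynomial.lifts OO.subtype := by
      rw [Polynomial.lifts_iff_coeff_lifts]
      intro k
      rw [Polynomial.coeff_map]
      exact ⟨⟨_, hcoef k⟩, rfl⟩
    obtain ⟨Q, hQ, -, hQm⟩ := Polynomial.lifts_and_natDegree_eq_and_monic hlift hmon2
    have hint : IsIntegral OO (Kron_h hp (jA hp.pos B) τ) := by
      refine ⟨Q, hQm, ?_⟩
      have h1 : Q.eval₂ OO.subtype (Kron_h hp (jA hp.pos B) τ) = 0 := by
        rw [← Polynomial.eval_map, hQ]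
        exact hroot
      exact h1
    have h2 : IsIntegral ℤ (Kron_h hp (jA hp.pos B) τ) := by
      have h1 : Algebra.IsIntegral ℤ OO := by
        refine ⟨fun x => ?_⟩
        have hx : IsIntegral ℤ (x : ℂ) := x.2
        exact (isIntegral_algHom_iff (RingHom.toIntAlgHom OO.subtype)
          (fun a b h => Subtype.ext h)).mp hx
      exact isIntegral_trans _ hint
    exact h2
  · unfold Kron_h
    field_simp

end Pool.Agent.LGO.CK
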