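import Mathlib
import Pool.Agent.LGO.CK.Kron
import Pool.Agent.LGO.CK.Frob
import Pool.Agent.LGO.CK.Form

/-!
# LGO/CK: the singular moduli of a given discriminant are conjugate

`orbit`.  Let `S` be the finite set of the `j(τ)`, `τ` with a primitive form of discriminant `Δ` (`finite_disc`),
`M` from `conj_of_kron`.  Claim: if `τ` has the form `(a, b, c)` with `a` prime to `M Δ` then `j(τ)` is conjugate to
`j(τ₁)` for some `τ₁` with a form `(1, b₁, c₁)` of discriminant `Δ`.  Induction on `a`: if `a = 1` nothing to do; if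
`a > 1` let `p` be a prime divisor of `a`, `p ∤ M Δ`; `τ₁ = p τ` has the form `(a / p, b, p c)` (`mul_p`), so
`j(τ), j(p τ) ∈ S`, and `kron` with `B = !![p, 0; 0, 1] ∈ DD p` (`jA hp.pos B τ = jInv τ₁`: `coe_act` in
`Pool/Agent/Hhelper14/ZP/Orbit.lean`) gives the hypothesis of `conj_of_kron`, so `j(τ₁) = σ j(τ)`; `a / p` is prime to
`M Δ`.
General `τ, τ'`: by `exists_coprime` (and `jInv_smul`) we may assume that the leading coefficients are prime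
to `M Δ`; the two principal points have the same `j` (`principal`).

`dominant`: apply `orbit` to `τ` and the point `τ' = (-b + √Δ) / 2` with the form `(1, b, a c)`.
-/

namespace Pool.Agent.LGO.CK

open UpperHalfPlane Pool.Agent.Hhelper14.ZP MatrixGroups

variable {τ τ' : ℍ} {a b c a' b' c' : ℤ}

private theorem Orbit_step {τ : ℍ} {a b c : ℤ} (h : HasForm τ a b c) {p : ℕ} (hp : p.Prime)
    (hpa : (p : ℤ) ∣ a) (hd : ¬ (p : ℤ) ∣ b ^ 2 - 4 * a * c) :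
    ∃ τ₁ : ℍ, HasForm τ₁ (a / p) b (p * c) ∧
      ∃ z : ℂ, IsIntegral ℤ z ∧ (jInv τ₁ ^ p - jInv τ) * (jInv τ₁ - jInv τ ^ p) = p * z := by
  let B : DD (p : ℤ) := ⟨!![(p : ℤ), 0; 0, 1], by simp [Matrix.det_fin_two]⟩
  obtain ⟨z, hz, e⟩ := kron hp B τ (h.integral : jInv τ ∈ OO)
  have hc : ((act hp.pos B τ : ℍ) : ℂ) = (p : ℂ) * τ := by
    rw [coe_act]
    simp [B]
  refine ⟨act hp.pos B τ, ?_, z, hz, e⟩
  rw [hc]
  exact (h.mul_p hp hpa hd).1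

private theorem Orbit_princ {D : ℤ} {M : ℕ} (hM : ∀ p : ℕ, p.Prime → ¬ p ∣ M →
      ∀ x ∈ (finite_disc D).toFinset, ∀ y ∈ (finite_disc D).toFinset,
      (∃ z : ℂ, IsIntegral ℤ z ∧ (y ^ p - x) * (y - x ^ p) = p * z) → ∃ σ : ℂ ≃+* ℂ, σ x = y)
    (n : ℕ) : ∀ (τ : ℍ) (a b c : ℤ), a.toNat = n → HasForm τ a b c → b ^ 2 - 4 * a * c = D →
      IsCoprime a ((M : ℤ) * D) → ∃ (τ₁ : ℍ) (b₁ c₁ : ℤ), HasForm τ₁ 1 b₁ c₁ ∧
        b₁ ^ 2 - 4 * 1 * c₁ = D ∧ ∃ σ : ℂ ≃+* ℂ, σ (jInv τ) = jInv τ₁ := by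
  induction n using Nat.strong_induction_on with
  | _ n ih =>
    intro τ a b c hn h hD hco
    have ha : (0 : ℤ) < a := h.pos
    have han : (a.toNat : ℤ) = a := Int.toNat_of_nonneg ha.le
    by_cases h1 : a = 1
    · subst h1
      exact ⟨τ, b, c, h, hD, RingEquiv.refl ℂ, rfl⟩
    · obtain ⟨p, hp, hpa'⟩ := Nat.exists_prime_and_dvd (n := a.toNat) (by omega)
      have hpa : (p : ℤ) ∣ a := by
        rw [← han]
        exact_mod_cast hpa'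
      have hpM : IsCoprime (p : ℤ) ((M : ℤ) * D) := IsCoprime.of_isCoprime_of_dvd_left hco hpa
      have hpu : ¬ IsUnit (p : ℤ) := by
        rw [Int.isUnit_iff]
        have := hp.two_le
        omega
      have hpM1 : ¬ p ∣ M := fun hd => hpu (hpM.isUnit_of_dvd'
        dvd_rfl (Dvd.dvd.mul_right (by exact_mod_cast hd) D))
      have hpD : ¬ (p : ℤ) ∣ b ^ 2 - 4 * a * c := by
        rw [hD]
        exact fun hd => hpu (hpM.isUnit_of_dvd' dvd_rfl (Dvd.dvd.mul_left hd (M : ℤ)))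
      obtain ⟨τ₁, h₁, hz⟩ := Orbit_step h hp hpa hpD
      have hD₁ : b ^ 2 - 4 * (a / p) * (p * c) = D := by
        rw [(h.mul_p hp hpa hpD).2, hD]
      obtain ⟨σ, hσ⟩ := hM p hp hpM1 (jInv τ)
        ((finite_disc D).mem_toFinset.2 ⟨τ, a, b, c, h, hD, rfl⟩) (jInv τ₁)
        ((finite_disc D).mem_toFinset.2 ⟨τ₁, a / p, b, p * c, h₁, hD₁, rfl⟩) hz
      have hlt : (a / p).toNat < n := by
        have hp2 : (2 : ℤ) ≤ p := by exact_mod_cast hp.two_le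
        have h2 : a / p < a := Int.ediv_lt_self_of_pos_of_ne_one ha (by omega)
        omega
      obtain ⟨τ₂, b₂, c₂, h₂, hD₂, σ₂, hσ₂⟩ := ih _ hlt τ₁ (a / p) b (p * c) rfl h₁ hD₁
        (IsCoprime.of_isCoprime_of_dvd_left hco (Int.ediv_dvd_of_dvd hpa))
      exact ⟨τ₂, b₂, c₂, h₂, hD₂, σ.trans σ₂, by rw [RingEquiv.trans_apply, hσ, hσ₂]⟩

private theorem Orbit_reduce {τ : ℍ} {a b c : ℤ} (h : HasForm τ a b c) :
    ∃ (τ₁ : ℍ) (b₁ c₁ : ℤ), HasForm τ₁ 1 b₁ c₁ ∧ b₁ ^ 2 - 4 * 1 * c₁ = b ^ 2 - 4 * a * c ∧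
      ∃ σ : ℂ ≃+* ℂ, σ (jInv τ) = jInv τ₁ := by
  obtain ⟨M, hM0, hM⟩ := conj_of_kron (finite_disc (b ^ 2 - 4 * a * c)).toFinset (by
    intro x hx
    obtain ⟨τ, a, b, c, h, -, rfl⟩ := (finite_disc _).mem_toFinset.1 hx
    exact h.integral)
  obtain ⟨γ, a', b', c', h', hd', hco⟩ := h.exists_coprime
    (M := (M : ℤ) * (b ^ 2 - 4 * a * c)) (mul_ne_zero (by exact_mod_cast hM0.ne') h.disc_neg.ne)
  obtain ⟨τ₁, b₁, c₁, h₁, hd₁, σ, hσ⟩ := Orbit_princ hM _ (γ • τ) a' b' c' rfl h' hd' hco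
  exact ⟨τ₁, b₁, c₁, h₁, hd₁, σ, by rw [← hσ, jInv_smul]⟩

/-- the singular moduli of discriminant `Δ` are conjugate over `ℚ` -/
theorem orbit (h : HasForm τ a b c) (h' : HasForm τ' a' b' c')
    (hd : b ^ 2 - 4 * a * c = b' ^ 2 - 4 * a' * c') : ∃ σ : ℂ ≃+* ℂ, σ (jInv τ) = jInv τ' := by
  obtain ⟨τ₁, b₁, c₁, h₁, hd₁, σ₁, hσ₁⟩ := Orbit_reduce h
  obtain ⟨τ₂, b₂, c₂, h₂, hd₂, σ₂, hσ₂⟩ := Orbit_reduce h'
  have hj := HasForm.principal h₁ h₂ (by rw [hd₁, hd₂, hd])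
  refine ⟨σ₁.trans σ₂.symm, ?_⟩
  rw [RingEquiv.trans_apply, hσ₁, hj, ← hσ₂, RingEquiv.symm_apply_apply]

/-- the dominant conjugate -/
theorem dominant (h : HasForm τ a b c) : ∃ (σ : ℂ ≃+* ℂ) (τ' : ℍ), σ (jInv τ) = jInv τ' ∧
    (τ' : ℂ).im = √(4 * a * c - b ^ 2 : ℝ) / 2 := by
  have hneg : (b : ℝ) ^ 2 - 4 * a * c < 0 := by exact_mod_cast h.disc_neg
  have hpos : 0 < (4 * a * c - b ^ 2 : ℝ) := by linarith
  have hs : 0 < √(4 * a * c - b ^ 2 : ℝ) := Real.sqrt_pos.2 hpos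
  have hsq : √(4 * a * c - b ^ 2 : ℝ) ^ 2 = 4 * a * c - b ^ 2 := Real.sq_sqrt hpos.le
  generalize √(4 * a * c - b ^ 2 : ℝ) = r at hs hsq ⊢
  let z : ℂ := ⟨-b / 2, r / 2⟩
  have hz : 0 < z.im := half_pos hs
  have h' : HasForm ((⟨z, hz⟩ : ℍ) : ℂ) 1 b (a * c) := by
    refine ⟨one_pos, fun d hd _ _ => isUnit_of_dvd_one hd, ?_⟩
    change ((1 : ℤ) : ℂ) * z ^ 2 + b * z + ((a * c : ℤ) : ℂ) = 0
    apply Complex.ext
    · simp only [z, pow_two, Complex.add_re, Complex.mul_re, Complex.mul_im, Complex.intCast_re,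
        Complex.intCast_im, Complex.zero_re]
      push_cast
      linear_combination (-1 / 4 : ℝ) * hsq
    · simp only [z, pow_two, Complex.add_im, Complex.mul_re, Complex.mul_im, Complex.intCast_re,
        Complex.intCast_im, Complex.zero_im]
      push_cast
      ring
  obtain ⟨σ, hσ⟩ := orbit h h' (by ring)
  exact ⟨σ, ⟨z, hz⟩, hσ, rfl⟩

end Pool.Agent.LGO.CK
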