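import Mathlib
import Pool.Agent.LGO.CK.Orbit
import Pool.Agent.LGO.CK.Disc
import Pool.Agent.LGO.CK.Meas

/-!
# LGO/CK: consequences of the description of the Galois orbits of singular moduli

`disc_le`: the dominant conjugate (`dominant`) has imaginary part `√D / 2`, and `dom_size`.

`ao_of_cls`.  `R x y` is a relation stable under the automorphisms of `ℂ`; if `x` is large then `y` is close to one
of finitely many algebraic numbers, and vice versa (`Cls`).  Let `x, y` be singular moduli with `R x y`, with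
discriminants `D, D'` (`exists_form`, `IsCMVal`), say `D' ≤ D` (the other case is symmetric).  Let `σ` be an
automorphism such that `σ x` is the dominant conjugate: `exp (π √D) ≤ C (1 + |σ x|)` (for `D ≥ 4`).
`R (σ x) (σ y)`, so for large `D` there is `β ∈ B` with `|σ y - β| ^ m ≤ C / |σ x| ≤ C' exp (-π √D)`.  `σ y` is a singular
modulus with discriminant `D'' ≤ D' + 16 ≤ D + 16` (`conj_form`).  If `σ y = β` then `y = σ⁻¹ β` is in the finite set
of the conjugates of the elements of `B`.  Otherwise `cm_meas`: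
`exp (-(C (log (D + 19)) ^ C)) ≤ |σ y - β|`, so `π √D ≤ C'' (log (D + 19)) ^ C''`, so `D ≤ D₀`, and `x, y` are in the finite
set of the singular moduli with discriminant at most `D₀` (`finite_disc`).
-/

namespace Pool.Agent.LGO.CK

open UpperHalfPlane Pool.Agent.Hhelper14.ZP MatrixGroups

/-- if all conjugates of a singular modulus are at most `exp H` then its discriminant is at most `(H + C) ^ 2` -/
theorem disc_le : ∃ C : ℝ, 0 < C ∧ ∀ (τ : ℍ) (a b c : ℤ) (H : ℝ), 0 ≤ H → HasForm τ a b c →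
    (∀ σ : ℂ ≃+* ℂ, ‖σ (jInv τ)‖ ≤ Real.exp H) → (4 * a * c - b ^ 2 : ℝ) ≤ (H + C) ^ 2 := by
  obtain ⟨C₀, hC₀, hdom⟩ := dom_size
  refine ⟨2 + |Real.log (2 * C₀)|, by positivity, fun τ a b c H hH h hσ => ?_⟩
  obtain ⟨σ, τ₁, hσ₁, him⟩ := dominant h
  have hneg : (b : ℝ) ^ 2 - 4 * a * c < 0 := by exact_mod_cast h.disc_neg
  have hpos : 0 < (4 * a * c - b ^ 2 : ℝ) := by linarith
  have hsq : √(4 * a * c - b ^ 2 : ℝ) ^ 2 = 4 * a * c - b ^ 2 := Real.sq_sqrt hpos.le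
  have hr0 : 0 ≤ √(4 * a * c - b ^ 2 : ℝ) := Real.sqrt_nonneg _
  rw [← hsq]
  generalize √(4 * a * c - b ^ 2 : ℝ) = r at him hr0 ⊢
  have habs := abs_nonneg (Real.log (2 * C₀))
  apply pow_le_pow_left₀ hr0
  rcases lt_or_ge r 2 with h2 | h2
  · linarith
  · have h1 := hdom τ₁ (by rw [him]; linarith)
    have h3 : ‖jInv τ₁‖ ≤ Real.exp H := by
      rw [← hσ₁]
      exact hσ σ
    have h4 : (1 : ℝ) ≤ Real.exp H := Real.one_le_exp hH
    have h5 : Real.exp (Real.pi * r) ≤ 2 * C₀ * Real.exp H := by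
      calc Real.exp (Real.pi * r) = Real.exp (2 * Real.pi * (τ₁ : ℂ).im) := by
            rw [him]
            ring_nf
        _ ≤ C₀ * (1 + ‖jInv τ₁‖) := h1
        _ ≤ C₀ * (2 * Real.exp H) := by
            apply mul_le_mul_of_nonneg_left _ hC₀.le
            linarith
        _ = 2 * C₀ * Real.exp H := by ring
    have h6 : Real.pi * r ≤ Real.log (2 * C₀) + H := by
      have := Real.log_le_log (Real.exp_pos _) h5
      rwa [Real.log_exp, Real.log_mul (by positivity) (Real.exp_pos _).ne', Real.log_exp] at this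
    have h7 : r ≤ Real.pi * r := by
      nlinarith [Real.pi_gt_three]
    have h8 := le_abs_self (Real.log (2 * C₀))
    linarith

/-- if `x` is large then `y` is close to one of finitely many algebraic numbers -/
def Cls (R : ℂ → ℂ → Prop) : Prop := ∃ (B : Set ℂ) (C : ℝ) (m : ℕ), B.Finite ∧
  (∀ β ∈ B, IsAlgebraic ℚ β) ∧ 1 ≤ C ∧ 0 < m ∧
  ∀ x y, R x y → C ≤ ‖x‖ → ∃ β ∈ B, ‖y - β‖ ^ m ≤ C / ‖x‖

/-- the conjugates of the elements of a finite set of algebraic numbers -/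
private lemma AO_conj_finite {B : Set ℂ} (hB : B.Finite) (hal : ∀ β ∈ B, IsAlgebraic ℚ β) :
    {y : ℂ | ∃ β ∈ B, ∃ σ : ℂ ≃+* ℂ, σ y = β}.Finite := by
  have hsub : {y : ℂ | ∃ β ∈ B, ∃ σ : ℂ ≃+* ℂ, σ y = β} ⊆
      ⋃ β ∈ B, (minpoly ℚ β).rootSet ℂ := by
    rintro y ⟨β, hβ, σ, hσ⟩
    simp only [Set.mem_iUnion]
    refine ⟨β, hβ, ?_⟩
    rw [Polynomial.mem_rootSet]
    refine ⟨minpoly.ne_zero (hal β hβ).isIntegral, ?_⟩
    apply σ.injective
    rw [map_zero]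
    have h1 : σ (Polynomial.aeval y (minpoly ℚ β)) = Polynomial.aeval (σ y) (minpoly ℚ β) := by
      rw [Polynomial.aeval_def, Polynomial.aeval_def]
      have h3 := Polynomial.hom_eval₂ (minpoly ℚ β) (algebraMap ℚ ℂ) (σ : ℂ →+* ℂ) y
      have h2 : (σ : ℂ →+* ℂ).comp (algebraMap ℚ ℂ) = algebraMap ℚ ℂ := Subsingleton.elim _ _
      rw [h2] at h3
      exact h3
    rw [h1, hσ, minpoly.aeval]
  exact (hB.biUnion fun β _ => Polynomial.rootSet_finite _ _).subset hsub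

private lemma AO_num (A : ℝ) (hA : 0 ≤ A) (K : ℕ) : ∃ T : ℝ, ∀ t : ℝ, T ≤ t →
    4 ≤ t ∧ A ≤ √t ∧ A + A * Real.log (t + 19) ^ K < Real.pi * √t := by
  open Filter in
  have h1 : ∀ᶠ t : ℝ in atTop, 19 ≤ t := eventually_ge_atTop 19
  have hs : Filter.Tendsto (fun t : ℝ => √t) Filter.atTop Filter.atTop := Real.tendsto_sqrt_atTop
  have hs' : Filter.Tendsto (fun t : ℝ => √(t + 19)) Filter.atTop Filter.atTop :=
    hs.comp (Filter.tendsto_atTop_add_const_right _ _ Filter.tendsto_id)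
  have h2 : ∀ᶠ t : ℝ in Filter.atTop, 4 * A + 4 ≤ √t := hs.eventually_ge_atTop _
  have hε : 0 < 1 / (4 * (A + 1) * 2 ^ K) := by positivity
  have h3 := hs'.eventually ((Real.isLittleO_pow_log_id_atTop (n := K)).def hε)
  obtain ⟨T, hT⟩ := Filter.eventually_atTop.mp (h1.and (h2.and h3))
  refine ⟨T, fun t ht => ?_⟩
  obtain ⟨h4, h5, h6⟩ := hT t ht
  have h7 : √(t + 19) ≤ 2 * √t := by
    rw [Real.sqrt_le_iff]
    refine ⟨by positivity, ?_⟩
    rw [mul_pow, Real.sq_sqrt (by linarith)]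
    linarith
  rw [Real.log_sqrt (by linarith), id, Real.norm_of_nonneg (Real.sqrt_nonneg _)] at h6
  have h8 : (Real.log (t + 19) / 2) ^ K ≤ 1 / (4 * (A + 1) * 2 ^ K) * √(t + 19) :=
    (le_abs_self _).trans h6
  have h9 : Real.log (t + 19) ^ K = 2 ^ K * (Real.log (t + 19) / 2) ^ K := by
    rw [← mul_pow]
    congr 1
    ring
  have h10 : A * Real.log (t + 19) ^ K ≤ √t / 2 := by
    calc A * Real.log (t + 19) ^ K = A * 2 ^ K * (Real.log (t + 19) / 2) ^ K := by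
          rw [h9]
          ring
      _ ≤ A * 2 ^ K * (1 / (4 * (A + 1) * 2 ^ K) * (2 * √t)) := by
          apply mul_le_mul_of_nonneg_left _ (by positivity)
          exact h8.trans (mul_le_mul_of_nonneg_left h7 hε.le)
      _ = A / (A + 1) * (√t / 2) := by
          field_simp
          ring
      _ ≤ 1 * (√t / 2) := by
          apply mul_le_mul_of_nonneg_right _ (by positivity)
          rw [div_le_one (by linarith)]
          linarith
      _ = √t / 2 := one_mul _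
  have h11 : √t ≤ Real.pi * √t := by
    nlinarith [Real.pi_gt_three, Real.sqrt_nonneg t]
  refine ⟨by linarith, by linarith, ?_⟩
  linarith

private lemma AO_mono {K K₀ : ℕ} {L L₀ : ℝ} (hK : K ≤ K₀) (hL : 1 ≤ L) (hL₀ : L ≤ L₀) :
    (K : ℝ) * L ^ K ≤ K₀ * L₀ ^ K₀ := by
  have h1 : L ^ K ≤ L₀ ^ K₀ :=
    (pow_le_pow_left₀ (by linarith) hL₀ K).trans (pow_le_pow_right₀ (hL.trans hL₀) hK)
  have h2 : (K : ℝ) ≤ K₀ := by exact_mod_cast hK
  exact mul_le_mul h2 h1 (by positivity) (by positivity)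

private lemma AO_half {R : ℂ → ℂ → Prop} (hR : ∀ (σ : ℂ ≃+* ℂ) x y, R x y → R (σ x) (σ y))
    (h₁ : Cls R) : ∃ B : Set ℂ, B.Finite ∧ ∀ (τ τ' : ℍ) (a b c a' b' c' : ℤ),
      HasForm τ a b c → HasForm τ' a' b' c' → 4 * a' * c' - b' ^ 2 ≤ 4 * a * c - b ^ 2 →
      R (jInv τ) (jInv τ') → jInv τ ∈ B ∨ jInv τ' ∈ B := by
  obtain ⟨B, C, m, hB, hal, hC, hm, hcl⟩ := h₁
  obtain ⟨C₀, hC₀, hdom⟩ := dom_size
  choose! K hK hmeas using fun β (hβ : β ∈ B) => cm_meas (hal β hβ)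
  obtain ⟨K₀, hK₀⟩ : ∃ K₀ : ℕ, ∀ β ∈ B, K β ≤ K₀ := by
    obtain ⟨K₀, h⟩ := (hB.image K).bddAbove
    exact ⟨K₀, fun β hβ => h (Set.mem_image_of_mem K hβ)⟩
  obtain ⟨A, hAdef⟩ : ∃ A : ℝ, A = 2 * C₀ * (C + 1) + m * K₀ + |Real.log (2 * C * C₀)| := ⟨_, rfl⟩
  have hA1 : 0 ≤ 2 * C₀ * (C + 1) := by positivity
  have hA2 : (0 : ℝ) ≤ m * K₀ := by positivity
  have hA3 := abs_nonneg (Real.log (2 * C * C₀))
  obtain ⟨T, hT⟩ := AO_num A (by linarith) K₀
  refine ⟨{y | ∃ β ∈ B, ∃ σ : ℂ ≃+* ℂ, σ y = β} ∪ ⋃ Δ ∈ Set.Icc (-⌈T⌉) 0,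
    {x : ℂ | ∃ (τ : ℍ) (a b c : ℤ), HasForm τ a b c ∧ b ^ 2 - 4 * a * c = Δ ∧ x = jInv τ},
    (AO_conj_finite hB hal).union ((Set.finite_Icc _ _).biUnion fun Δ _ => finite_disc Δ), ?_⟩
  intro τ τ' a b c a' b' c' h h' hDD hRxy
  have hneg := h.disc_neg
  rcases lt_or_ge (4 * a * c - b ^ 2 : ℝ) T with hlt | hge
  · left
    right
    simp only [Set.mem_iUnion]
    refine ⟨b ^ 2 - 4 * a * c, ⟨?_, hneg.le⟩, τ, a, b, c, h, rfl, rfl⟩
    have h1 : ((4 * a * c - b ^ 2 : ℤ) : ℝ) ≤ (⌈T⌉ : ℝ) := by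
      push_cast
      exact hlt.le.trans (Int.le_ceil T)
    have h2 : 4 * a * c - b ^ 2 ≤ ⌈T⌉ := by exact_mod_cast h1
    linarith
  · obtain ⟨h4, hA4, hnum⟩ := hT _ hge
    obtain ⟨σ, τ₁, hσ, him⟩ := dominant h
    have hr2 : 2 ≤ √(4 * a * c - b ^ 2 : ℝ) := by
      rw [show (2 : ℝ) = √4 by
        rw [show (4 : ℝ) = 2 ^ 2 by norm_num, Real.sqrt_sq (by norm_num)]]
      exact Real.sqrt_le_sqrt h4
    have hL₀ : Real.log (4 * a * c - b ^ 2 + 19 : ℝ) = Real.log (4 * a * c - b ^ 2 + 19 : ℝ) := rfl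
    obtain ⟨L₀, hL₀'⟩ : ∃ L₀, L₀ = Real.log (4 * a * c - b ^ 2 + 19 : ℝ) := ⟨_, rfl⟩
    rw [← hL₀'] at hnum
    obtain ⟨r, hr⟩ : ∃ r, r = √(4 * a * c - b ^ 2 : ℝ) := ⟨_, rfl⟩
    rw [← hr] at hnum him hr2 hA4
    have h5 := hdom τ₁ (by rw [him]; linarith)
    rw [him, show 2 * Real.pi * (r / 2) = Real.pi * r by ring] at h5
    have h6 : r ≤ Real.exp (Real.pi * r) := by
      have h7 := Real.add_one_le_exp (Real.pi * r)
      nlinarith [Real.pi_gt_three]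
    have h7 : 2 * C + 1 ≤ ‖jInv τ₁‖ := by
      have h8 : C₀ * (2 * (C + 1)) ≤ C₀ * (1 + ‖jInv τ₁‖) := by linarith
      have h9 := le_of_mul_le_mul_left h8 hC₀
      linarith
    have hX : 0 < ‖jInv τ₁‖ := by linarith
    have h8 : Real.exp (Real.pi * r) ≤ 2 * C₀ * ‖jInv τ₁‖ := by
      calc _ ≤ C₀ * (1 + ‖jInv τ₁‖) := h5
        _ ≤ C₀ * (2 * ‖jInv τ₁‖) := by
            apply mul_le_mul_of_nonneg_left _ hC₀.le
            linarith
        _ = _ := by ring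
    obtain ⟨β, hβ, hclose⟩ := hcl _ _ (hR σ _ _ hRxy) (by rw [hσ]; linarith)
    obtain ⟨τ₂, a₂, b₂, c₂, h₂, hσ₂, hD₂⟩ := conj_form h' σ
    rw [hσ, hσ₂] at hclose
    by_cases heq : jInv τ₂ = β
    · right
      left
      exact ⟨β, hβ, σ, by rw [hσ₂, heq]⟩
    · exfalso
      have hmz := hmeas β hβ τ₂ a₂ b₂ c₂ h₂ heq
      have hpos₂ : (1 : ℝ) ≤ 4 * a₂ * c₂ - b₂ ^ 2 := by
        have h9 := h₂.disc_neg
        have h10 : 1 ≤ 4 * a₂ * c₂ - b₂ ^ 2 := by omega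
        exact_mod_cast h10
      have hle₂ : (4 * a₂ * c₂ - b₂ ^ 2 + 3 : ℝ) ≤ 4 * a * c - b ^ 2 + 19 := by
        have h10 : 4 * a₂ * c₂ - b₂ ^ 2 + 3 ≤ 4 * a * c - b ^ 2 + 19 := by omega
        exact_mod_cast h10
      have hL1 : 1 ≤ Real.log (4 * a₂ * c₂ - b₂ ^ 2 + 3 : ℝ) := by
        rw [Real.le_log_iff_exp_le (by linarith)]
        have := Real.exp_one_lt_d9
        linarith
      have hL2 : Real.log (4 * a₂ * c₂ - b₂ ^ 2 + 3 : ℝ) ≤ L₀ := by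
        rw [hL₀']
        exact Real.log_le_log (by linarith) hle₂
      have hm1 := AO_mono (hK₀ β hβ) hL1 hL2
      have hlow : Real.exp (-(K₀ * L₀ ^ K₀)) ≤ ‖jInv τ₂ - β‖ := by
        refine le_trans ?_ hmz
        apply Real.exp_le_exp.mpr
        linarith
      have hpw : Real.exp (-(K₀ * L₀ ^ K₀)) ^ m ≤ C / ‖jInv τ₁‖ :=
        (pow_le_pow_left₀ (Real.exp_pos _).le hlow m).trans hclose
      rw [← Real.exp_nat_mul, le_div_iff₀ hX] at hpw
      have hfin : Real.exp (m * -(K₀ * L₀ ^ K₀)) * Real.exp (Real.pi * r) ≤ 2 * C * C₀ := by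
        calc _ ≤ Real.exp (m * -(K₀ * L₀ ^ K₀)) * (2 * C₀ * ‖jInv τ₁‖) :=
              mul_le_mul_of_nonneg_left h8 (Real.exp_pos _).le
          _ = 2 * C₀ * (Real.exp (m * -(K₀ * L₀ ^ K₀)) * ‖jInv τ₁‖) := by ring
          _ ≤ 2 * C₀ * C := mul_le_mul_of_nonneg_left hpw (by positivity)
          _ = 2 * C * C₀ := by ring
      rw [← Real.exp_add] at hfin
      have hlog := Real.log_le_log (Real.exp_pos _) hfin
      rw [Real.log_exp] at hlog
      have h12 := le_abs_self (Real.log (2 * C * C₀))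
      have hL3 : 1 ≤ L₀ := hL1.trans hL2
      have h13 : (m : ℝ) * K₀ * L₀ ^ K₀ ≤ A * L₀ ^ K₀ := by
        apply mul_le_mul_of_nonneg_right _ (by positivity)
        linarith
      have h14 : (m : ℝ) * -(K₀ * L₀ ^ K₀) = -(m * K₀ * L₀ ^ K₀) := by ring
      rw [h14] at hlog
      linarith

/-- **effective André-Oort** for relations without a common pole -/
theorem ao_of_cls {R : ℂ → ℂ → Prop} (hR : ∀ (σ : ℂ ≃+* ℂ) x y, R x y → R (σ x) (σ y))
    (h₁ : Cls R) (h₂ : Cls fun x y => R y x) : ∃ B : Set ℂ, B.Finite ∧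
      ∀ x y, R x y → IsCMVal x → IsCMVal y → x ∈ B ∨ y ∈ B := by
  obtain ⟨B₁, hB₁, hb₁⟩ := AO_half hR h₁
  obtain ⟨B₂, hB₂, hb₂⟩ := AO_half (R := fun x y => R y x) (fun σ x y h => hR σ y x h) h₂
  refine ⟨B₁ ∪ B₂, hB₁.union hB₂, ?_⟩
  rintro x y hxy ⟨τ, hτ, rfl⟩ ⟨τ', hτ', rfl⟩
  obtain ⟨a, b, c, h⟩ := exists_form hτ
  obtain ⟨a', b', c', h'⟩ := exists_form hτ'
  rcases le_total (4 * a' * c' - b' ^ 2) (4 * a * c - b ^ 2) with hle | hle
  · rcases hb₁ τ τ' a b c a' b' c' h h' hle hxy with h3 | h3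
    · exact Or.inl (Or.inl h3)
    · exact Or.inr (Or.inl h3)
  · rcases hb₂ τ' τ a' b' c' a b c h' h hle hxy with h3 | h3
    · exact Or.inr (Or.inr h3)
    · exact Or.inl (Or.inr h3)

end Pool.Agent.LGO.CK
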