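import Mathlib

/-!
# LGO/CK: two rational functions without a common pole

`x = A(t) / B(t)`, `y = A'(t) / B'(t)` in lowest terms, without a common pole on the projective line (finite
poles: zeros of `B`, resp. `B'`; `∞` is a pole iff `deg B < deg A`, resp. `deg B' < deg A'`).  If `x` is large then
`y` is close to one of the values of `y` at the poles of `x`.

Let `Z` be the finite set of the values `β_c = A'(c) / B'(c)` at the roots `c` of `B`, together with the value at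
`∞` if `deg B < deg A`: `β_∞ = coeff A' (deg B') / leadingCoeff B'` (here `deg A' ≤ deg B'`).
Claim: there is `m` such that `Π(t) ^ m x(t)` is bounded on `{t | |x(t)| ≥ C}`, `Π(t) = ∏_{β ∈ Z} (y(t) - β)`:
otherwise there are `t_k` with `|x(t_k)| → ∞` and `|Π(t_k) ^ m x(t_k)| → ∞`; after passing to a subsequence either
`t_k → c` in `ℂ`, or `|t_k| → ∞`.  In the first case `B(c) = 0` (otherwise `x` is bounded near `c`), `B'(c) ≠ 0`,
`y - β_c = (A' - β_c B') / B'` vanishes at `c`, so `|y(t) - β_c| ≤ C |t - c|` near `c`, `|x(t)| ≤ C |t - c| ^ (-deg B)`,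
so `Π ^ m x` is bounded near `c` if `m ≥ deg B`.  In the second case `x` has a pole at `∞`,
`|x(t)| ≤ C |t| ^ (deg A)`, `|y(t) - β_∞| ≤ C / |t|`, so `m ≥ deg A` is enough.
(Instead of sequences: the set `{|t - c| ≥ ρ for the roots c of B, |t| ≤ 1/ρ}` is compact and `x` is continuous
on it.)
Hence `∏_{β ∈ Z} |y - β| ^ m ≤ C / |x|`, and the smallest factor satisfies `|y - β| ^ (m card Z) ≤ C / |x|`.
If `Z` is empty then `x` is bounded (a polynomial of degree `0`), and there is nothing to prove for large `C`.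
The elements of `Z` are algebraic if the coefficients are.
-/

namespace Pool.Agent.LGO.CK

open Polynomial Filter Topology

theorem ClsA_local (A B A' B' : ℂ[X]) (c : ℂ) (hB : B ≠ 0) (hc : B'.eval c ≠ 0) (m : ℕ) (hm : B.natDegree ≤ m) :
    ∃ ρ : ℝ, 0 < ρ ∧ ∃ K : ℝ, 0 ≤ K ∧ ∀ t : ℂ, ‖t - c‖ < ρ → B.eval t ≠ 0 →
      ‖A'.eval t / B'.eval t - A'.eval c / B'.eval c‖ ^ m * ‖A.eval t / B.eval t‖ ≤ K := by
  obtain ⟨D, hD⟩ : ∃ D : ℂ[X], B = (X - C c) ^ B.rootMultiplicity c * D :=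
    pow_rootMultiplicity_dvd B c
  have hDc : D.eval c ≠ 0 := by
    intro h
    have h1 : (X - C c) ∣ D := dvd_iff_isRoot.mpr h
    obtain ⟨D2, rfl⟩ := h1
    have h2 : (X - C c) ^ (B.rootMultiplicity c + 1) ∣ B := ⟨D2, by rw [pow_succ, mul_assoc]; exact hD⟩
    exact absurd ((le_rootMultiplicity_iff hB).mpr h2) (by omega)
  obtain ⟨E, hE⟩ : (X - C c) ∣ (A' * C (B'.eval c) - C (A'.eval c) * B') := by
    rw [dvd_iff_isRoot]
    simp [IsRoot, mul_comm]
  set e := B.rootMultiplicity c with he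
  have hem : e ≤ m := by
    have h1 := natDegree_le_of_dvd (Dvd.intro D hD.symm) hB
    rw [natDegree_pow, natDegree_X_sub_C, mul_one] at h1
    exact h1.trans hm
  let g : ℂ → ℂ := fun t => (t - c) ^ (m - e) * (E.eval t / (B'.eval t * B'.eval c)) ^ m * (A.eval t / D.eval t)
  have hg : ContinuousAt g c := by
    have h1 : ContinuousAt (fun t => E.eval t / (B'.eval t * B'.eval c)) c :=
      ContinuousAt.div E.continuous.continuousAt
        (B'.continuous.continuousAt.mul continuousAt_const) (mul_ne_zero hc hc)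
    have h2 : ContinuousAt (fun t => A.eval t / D.eval t) c :=
      ContinuousAt.div A.continuous.continuousAt D.continuous.continuousAt hDc
    exact (((continuousAt_id.sub continuousAt_const).pow _).mul (h1.pow _)).mul h2
  have h3 : ∀ᶠ t in 𝓝 c, ‖g t‖ < ‖g c‖ + 1 := hg.norm.eventually_lt continuousAt_const (by simp)
  have h4 : ∀ᶠ t in 𝓝 c, B'.eval t ≠ 0 := B'.continuous.continuousAt.eventually_ne hc
  obtain ⟨ρ, hρ, h5⟩ := Metric.eventually_nhds_iff.mp (h3.and h4)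
  refine ⟨ρ, hρ, ‖g c‖ + 1, by positivity, fun t ht hBt => ?_⟩
  obtain ⟨h6, h7⟩ := h5 (by rwa [dist_eq_norm])
  have hBt2 : B.eval t = (t - c) ^ e * D.eval t := by
    conv_lhs => rw [hD]
    simp
  have hE2 : A'.eval t * B'.eval c - A'.eval c * B'.eval t = (t - c) * E.eval t := by
    have := congrArg (Polynomial.eval t) hE
    simpa using this
  have hpow : (t - c) ^ e ≠ 0 := by
    intro h
    exact hBt (by rw [hBt2, h, zero_mul])
  have hDt : D.eval t ≠ 0 := by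
    intro h
    exact hBt (by rw [hBt2, h, mul_zero])
  have key : (A'.eval t / B'.eval t - A'.eval c / B'.eval c) ^ m * (A.eval t / B.eval t) = g t := by
    have h8 : A'.eval t / B'.eval t - A'.eval c / B'.eval c =
        (t - c) * (E.eval t / (B'.eval t * B'.eval c)) := by
      rw [← mul_div_assoc, ← hE2]
      field_simp
    rw [h8, mul_pow, hBt2]
    show _ = (t - c) ^ (m - e) * (E.eval t / (B'.eval t * B'.eval c)) ^ m * (A.eval t / D.eval t)
    have h9 : (t - c) ^ m = (t - c) ^ (m - e) * (t - c) ^ e := by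
      rw [← pow_add, Nat.sub_add_cancel hem]
    rw [h9]
    field_simp
  rw [← norm_pow, ← norm_mul, key]
  exact h6.le

theorem ClsA_f1 (u v p q : ℂ) (hu : u ≠ 0) (hv : v ≠ 0) : v * p / (u * v * q) = u⁻¹ * (p / q) := by
  rcases eq_or_ne q 0 with rfl | hq
  · simp
  · field_simp

theorem ClsA_f2 (u v p q : ℂ) (hu : u ≠ 0) (hv : v ≠ 0) : u * v * p / (v * q) = p / (u⁻¹ * q) := by
  rcases eq_or_ne q 0 with rfl | hq
  · simp
  · field_simp

theorem ClsA_rev (P : ℂ[X]) (t : ℂ) (ht : t ≠ 0) : P.eval t = t ^ P.natDegree * P.reverse.eval t⁻¹ := by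
  let _ := invertibleOfNonzero ht
  have h := eval₂_reverse_mul_pow (RingHom.id ℂ) t P
  rw [invOf_eq_inv, eval₂_id, eval₂_id] at h
  rw [← h, mul_comm]

theorem ClsA_rev0 (P : ℂ[X]) : P.reverse.eval 0 = P.leadingCoeff := by
  rw [← coeff_zero_eq_eval_zero, coeff_zero_reverse]

/-- behaviour at infinity, no pole -/
theorem ClsA_inf1 (A B : ℂ[X]) (hB : B ≠ 0) (h : A.natDegree ≤ B.natDegree) :
    ∃ R : ℝ, 0 < R ∧ ∃ K : ℝ, 0 ≤ K ∧ ∀ t : ℂ, R < ‖t‖ → ‖A.eval t / B.eval t‖ ≤ K := by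
  let g : ℂ → ℂ := fun s => s ^ (B.natDegree - A.natDegree) * (A.reverse.eval s / B.reverse.eval s)
  have hB0 : B.reverse.eval 0 ≠ 0 := by rw [ClsA_rev0]; exact leadingCoeff_ne_zero.mpr hB
  have hg : ContinuousAt g 0 :=
    (continuousAt_id.pow _).mul (ContinuousAt.div A.reverse.continuous.continuousAt
      B.reverse.continuous.continuousAt hB0)
  have h3 : ∀ᶠ t in 𝓝 (0 : ℂ), ‖g t‖ < ‖g 0‖ + 1 := hg.norm.eventually_lt continuousAt_const (by simp)
  obtain ⟨ρ, hρ, h5⟩ := Metric.eventually_nhds_iff.mp h3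
  refine ⟨ρ⁻¹, inv_pos.mpr hρ, ‖g 0‖ + 1, by positivity, fun t ht => ?_⟩
  have ht0 : t ≠ 0 := by
    rintro rfl
    rw [norm_zero] at ht
    exact absurd (inv_pos.mpr hρ) (not_lt.mpr ht.le)
  have h6 := h5 (y := t⁻¹) (by
    rw [dist_zero_right, norm_inv]
    exact inv_lt_of_inv_lt₀ hρ ht)
  have key : A.eval t / B.eval t = g t⁻¹ := by
    rw [ClsA_rev A t ht0, ClsA_rev B t ht0]
    show _ = (t⁻¹) ^ (B.natDegree - A.natDegree) * (A.reverse.eval t⁻¹ / B.reverse.eval t⁻¹)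
    have h9 : t ^ B.natDegree = t ^ (B.natDegree - A.natDegree) * t ^ A.natDegree := by
      rw [← pow_add, Nat.sub_add_cancel h]
    rw [h9, inv_pow]
    exact ClsA_f1 _ _ _ _ (pow_ne_zero _ ht0) (pow_ne_zero _ ht0)
  rw [key]
  exact h6.le

/-- behaviour at infinity, pole -/
theorem ClsA_inf2 (A B A' B' : ℂ[X]) (hB : B ≠ 0) (hB' : B' ≠ 0) (h : B.natDegree ≤ A.natDegree)
    (h' : A'.natDegree ≤ B'.natDegree) (m : ℕ) (hm : A.natDegree ≤ m) :
    ∃ R : ℝ, 0 < R ∧ ∃ K : ℝ, 0 ≤ K ∧ ∀ t : ℂ, R < ‖t‖ → B.eval t ≠ 0 →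
      ‖A'.eval t / B'.eval t - A'.coeff B'.natDegree / B'.leadingCoeff‖ ^ m * ‖A.eval t / B.eval t‖ ≤ K := by
  have hB0 : B.reverse ≠ 0 := fun hh => hB (by simpa using hh)
  have hB0' : B'.reverse.eval 0 ≠ 0 := by rw [ClsA_rev0]; exact leadingCoeff_ne_zero.mpr hB'
  have hdeg : (X ^ (A.natDegree - B.natDegree) * B.reverse).natDegree ≤ m := by
    refine natDegree_mul_le.trans ?_
    have := B.reverse_natDegree_le
    rw [natDegree_X_pow]
    omega
  obtain ⟨ρ, hρ, K, hK, h1⟩ := ClsA_local A.reverse (X ^ (A.natDegree - B.natDegree) * B.reverse)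
    (X ^ (B'.natDegree - A'.natDegree) * A'.reverse) B'.reverse 0
    (mul_ne_zero (pow_ne_zero _ X_ne_zero) hB0) hB0' m hdeg
  refine ⟨ρ⁻¹, inv_pos.mpr hρ, K, hK, fun t ht hBt => ?_⟩
  have ht0 : t ≠ 0 := by
    rintro rfl
    rw [norm_zero] at ht
    exact absurd (inv_pos.mpr hρ) (not_lt.mpr ht.le)
  have hr := ClsA_rev B t ht0
  have h6 := h1 t⁻¹ (by
    rw [sub_zero, norm_inv]
    exact inv_lt_of_inv_lt₀ hρ ht) (by
    rw [eval_mul, eval_pow, eval_X]
    refine mul_ne_zero (pow_ne_zero _ (inv_ne_zero ht0)) fun hh => hBt ?_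
    rw [hr, hh, mul_zero])
  have e1 : A.eval t / B.eval t = A.reverse.eval t⁻¹ / (X ^ (A.natDegree - B.natDegree) * B.reverse).eval t⁻¹ := by
    rw [ClsA_rev A t ht0, ClsA_rev B t ht0, eval_mul, eval_pow, eval_X]
    have h9 : t ^ A.natDegree = t ^ (A.natDegree - B.natDegree) * t ^ B.natDegree := by
      rw [← pow_add, Nat.sub_add_cancel h]
    rw [h9, inv_pow]
    exact ClsA_f2 _ _ _ _ (pow_ne_zero _ ht0) (pow_ne_zero _ ht0)
  have e2 : A'.eval t / B'.eval t =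
      (X ^ (B'.natDegree - A'.natDegree) * A'.reverse).eval t⁻¹ / B'.reverse.eval t⁻¹ := by
    rw [ClsA_rev A' t ht0, ClsA_rev B' t ht0, eval_mul, eval_pow, eval_X]
    have h9 : t ^ B'.natDegree = t ^ (B'.natDegree - A'.natDegree) * t ^ A'.natDegree := by
      rw [← pow_add, Nat.sub_add_cancel h']
    rw [h9, inv_pow, ClsA_f1 _ _ _ _ (pow_ne_zero _ ht0) (pow_ne_zero _ ht0), mul_div_assoc]
  have e3 : A'.coeff B'.natDegree / B'.leadingCoeff =
      (X ^ (B'.natDegree - A'.natDegree) * A'.reverse).eval 0 / B'.reverse.eval 0 := by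
    rw [ClsA_rev0, eval_mul, eval_pow, eval_X, ClsA_rev0]
    rcases eq_or_lt_of_le h' with h2 | h2
    · rw [← h2, Nat.sub_self, pow_zero, one_mul]
      rfl
    · rw [coeff_eq_zero_of_natDegree_lt h2, zero_pow (by omega), zero_mul]
  rw [e1, e2, e3]
  exact h6

theorem ClsA_alg_eval (P : ℂ[X]) (hP : ∀ n, IsAlgebraic ℚ (P.coeff n)) {c : ℂ} (hc : IsAlgebraic ℚ c) :
    IsAlgebraic ℚ (P.eval c) := by
  rw [← mem_algebraicClosure_iff (F := ℚ) (E := ℂ), eval_eq_sum_range]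
  refine sum_mem fun n _ => mul_mem ?_ (pow_mem ?_ _)
  · exact mem_algebraicClosure_iff.mpr (hP n)
  · exact mem_algebraicClosure_iff.mpr hc

theorem ClsA_alg_div {a b : ℂ} (ha : IsAlgebraic ℚ a) (hb : IsAlgebraic ℚ b) : IsAlgebraic ℚ (a / b) := by
  rw [div_eq_mul_inv]
  exact ha.mul hb.inv

theorem ClsA_alg_root (P : ℂ[X]) (hP0 : P ≠ 0) (hP : ∀ n, IsAlgebraic ℚ (P.coeff n)) {c : ℂ}
    (hc : P.eval c = 0) : IsAlgebraic ℚ c := by
  have h1 : P ∈ lifts (algebraMap (algebraicClosure ℚ ℂ) ℂ) := by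
    rw [lifts_iff_coeff_lifts]
    intro n
    exact ⟨⟨P.coeff n, mem_algebraicClosure_iff.mpr (hP n)⟩, rfl⟩
  obtain ⟨Q, hQ⟩ := (mem_lifts _).mp h1
  have h2 : IsAlgebraic (algebraicClosure ℚ ℂ) c := by
    refine ⟨Q, ?_, ?_⟩
    · rintro rfl
      exact hP0 (by rw [← hQ, Polynomial.map_zero])
    · rw [aeval_def, ← eval_map, hQ, hc]
  have : Algebra.IsAlgebraic ℚ (algebraicClosure ℚ ℂ) := algebraicClosure.isAlgebraic ℚ ℂ
  exact IsAlgebraic.restrictScalars ℚ h2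

theorem cls_fix {A B A' B' : ℂ[X]} (hB : B ≠ 0) (hB' : B' ≠ 0) (h₁ : IsCoprime A B)
    (h₂ : IsCoprime A' B') (hfin : ∀ z, B.eval z = 0 → B'.eval z ≠ 0)
    (hinf : ¬ (B.natDegree < A.natDegree ∧ B'.natDegree < A'.natDegree))
    (halg : ∀ n, IsAlgebraic ℚ (A.coeff n) ∧ IsAlgebraic ℚ (B.coeff n) ∧ IsAlgebraic ℚ (A'.coeff n) ∧
      IsAlgebraic ℚ (B'.coeff n)) :
    ∃ (Z : Set ℂ) (C : ℝ) (m : ℕ), Z.Finite ∧ (∀ β ∈ Z, IsAlgebraic ℚ β) ∧ 1 ≤ C ∧ 0 < m ∧
      ∀ t : ℂ, B.eval t ≠ 0 → B'.eval t ≠ 0 → C ≤ ‖A.eval t / B.eval t‖ →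
        ∃ β ∈ Z, ‖A'.eval t / B'.eval t - β‖ ^ m ≤ C / ‖A.eval t / B.eval t‖ := by
  classical
  set m := A.natDegree + B.natDegree + 1 with hm
  set β0 := A'.coeff B'.natDegree / B'.leadingCoeff with hβ0
  -- infinity
  obtain ⟨R, hR, K0, hK0, h3⟩ : ∃ R : ℝ, 0 < R ∧ ∃ K : ℝ, 0 ≤ K ∧ ∀ t : ℂ, R < ‖t‖ → B.eval t ≠ 0 →
      ‖A.eval t / B.eval t‖ ≤ K ∨ ‖A'.eval t / B'.eval t - β0‖ ^ m * ‖A.eval t / B.eval t‖ ≤ K := by
    by_cases hd : A.natDegree ≤ B.natDegree
    · obtain ⟨R, hR, K, hK, h⟩ := ClsA_inf1 A B hB hd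
      exact ⟨R, hR, K, hK, fun t ht _ => Or.inl (h t ht)⟩
    · have hd' : A'.natDegree ≤ B'.natDegree := by
        by_contra hh
        exact hinf ⟨not_le.mp hd, not_le.mp hh⟩
      obtain ⟨R, hR, K, hK, h⟩ := ClsA_inf2 A B A' B' hB hB' (le_of_not_ge hd) hd' m (by omega)
      exact ⟨R, hR, K, hK, fun t ht hBt => Or.inr (h t ht hBt)⟩
  -- the finite poles
  have hroot : ∀ c ∈ B.roots.toFinset, B.eval c = 0 := by
    intro c hc
    rw [Multiset.mem_toFinset, mem_roots hB] at hc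
    exact hc
  have hloc : ∀ c : ℂ, ∃ ρ : ℝ, 0 < ρ ∧ ∃ K : ℝ, 0 ≤ K ∧ (c ∈ B.roots.toFinset → ∀ t : ℂ, ‖t - c‖ < ρ →
      B.eval t ≠ 0 → ‖A'.eval t / B'.eval t - A'.eval c / B'.eval c‖ ^ m * ‖A.eval t / B.eval t‖ ≤ K) := by
    intro c
    by_cases hc : c ∈ B.roots.toFinset
    · obtain ⟨ρ, hρ, K, hK, h⟩ := ClsA_local A B A' B' c hB (hfin c (hroot c hc)) m (by omega)
      exact ⟨ρ, hρ, K, hK, fun _ => h⟩
    · exact ⟨1, one_pos, 0, le_rfl, fun h => absurd h hc⟩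
  choose ρ hρ K hK h4 using hloc
  -- the compact part
  let T : Set ℂ := {t | ‖t‖ ≤ R ∧ ∀ c ∈ B.roots.toFinset, ρ c ≤ ‖t - c‖}
  have hTc : IsCompact T := by
    have h5 : T = Metric.closedBall 0 R ∩ ⋂ c ∈ B.roots.toFinset, {t | ρ c ≤ ‖t - c‖} := by
      ext t
      simp [T]
    rw [h5]
    refine (isCompact_closedBall 0 R).inter_right ?_
    refine isClosed_biInter fun c _ => ?_
    exact isClosed_le continuous_const (continuous_id.sub continuous_const).norm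
  have hTB : ∀ t ∈ T, B.eval t ≠ 0 := by
    intro t ht h0
    have h5 : t ∈ B.roots.toFinset := by
      rw [Multiset.mem_toFinset, mem_roots hB]
      exact h0
    have h6 := ht.2 t h5
    rw [sub_self, norm_zero] at h6
    exact absurd (hρ t) (not_lt.mpr h6)
  obtain ⟨M, hM⟩ := hTc.exists_bound_of_continuousOn (f := fun t => A.eval t / B.eval t)
    (A.continuous.continuousOn.div B.continuous.continuousOn hTB)
  have hsum : ∀ c ∈ B.roots.toFinset, K c ≤ ∑ c ∈ B.roots.toFinset, K c := fun c hc =>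
    Finset.single_le_sum (fun c _ => hK c) hc
  have hsum0 : 0 ≤ ∑ c ∈ B.roots.toFinset, K c := Finset.sum_nonneg fun c _ => hK c
  set C := 1 + K0 + |M| + ∑ c ∈ B.roots.toFinset, K c with hC
  have hC1 : 1 ≤ C := by have := abs_nonneg M; linarith
  refine ⟨insert β0 ((fun c => A'.eval c / B'.eval c) '' (B.roots.toFinset : Set ℂ)), C, m,
    (((B.roots.toFinset).finite_toSet).image _).insert _, ?_, hC1, by omega, ?_⟩
  · intro β hβ
    rcases hβ with rfl | ⟨c, hc, rfl⟩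
    · exact ClsA_alg_div (halg _).2.2.1 (halg _).2.2.2
    · have hca := ClsA_alg_root B hB (fun n => (halg n).2.1) (hroot c hc)
      exact ClsA_alg_div (ClsA_alg_eval A' (fun n => (halg n).2.2.1) hca)
        (ClsA_alg_eval B' (fun n => (halg n).2.2.2) hca)
  · intro t ht ht' hxt
    have hx0 : 0 < ‖A.eval t / B.eval t‖ := by linarith
    by_cases hRt : R < ‖t‖
    · rcases h3 t hRt ht with h5 | h5
      · have := abs_nonneg M
        linarith
      · refine ⟨β0, Set.mem_insert _ _, ?_⟩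
        rw [le_div_iff₀ hx0]
        have := abs_nonneg M
        linarith
    · by_cases hn : ∃ c ∈ B.roots.toFinset, ‖t - c‖ < ρ c
      · obtain ⟨c, hc, hct⟩ := hn
        refine ⟨A'.eval c / B'.eval c, Set.mem_insert_of_mem _ ⟨c, hc, rfl⟩, ?_⟩
        rw [le_div_iff₀ hx0]
        have h6 := h4 c hc t hct ht
        have h7 := hsum c hc
        have := abs_nonneg M
        linarith
      · simp only [not_exists, not_and, not_lt] at hn
        have h6 := hM t ⟨not_lt.mp hRt, hn⟩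
        have := le_abs_self M
        linarith

end Pool.Agent.LGO.CK
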