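import Mathlib
import Pool.Agent.LGO.CK.ClsA
import Pool.Agent.LGO.CK.AO
import Pool.Agent.LGO.Gal.Fin
import Pool.Agent.Hhelper14.ZPL.KClosed

/-!
# LGO/CK: two singular coordinates on a rational curve without common pole

`cls_param`: for an automorphism `σ` of `ℂ` and `P ∈ Qb[X]`: `σ (aeval t P) = (P^σ).eval (σ t)`, where `P^σ ∈ ℂ[X]` has
the coefficients `σ (coeff P n)`; since an algebraic number has finitely many conjugates, the tuple
`(A^σ, B^σ, A'^σ, B'^σ)` takes finitely many values (the set of polynomials of degree `≤ N` with coefficients in a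
finite set is finite).  Each of them satisfies the hypotheses of `cls_fix` (coprimality: map the Bezout
identity; poles: if `B^σ(z) = 0` then `z` is algebraic, `B(σ⁻¹ z) = 0`, so `B'(σ⁻¹ z) ≠ 0`; degrees are the same).
Take the union of the `Z`, the maximum of the `C` and one exponent (`‖·‖ ^ m ≤ C / ‖x‖ ≤ 1` implies the same
with a larger exponent: `C ≤ ‖x‖` after enlarging the first `C`, so `‖y - β‖ ≤ 1`).

`t4`: `R x y := ∃ σ t, ..` is stable under the automorphisms; `cls_param` twice and `ao_of_cls` give a finite `B`; for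
`x ∈ V` outside the finite exceptional set with `x a, x b` singular moduli: `x a ∈ B` or `x b ∈ B`; the sets
`{x ∈ V | x a = c}` are finite (`finite_inter` in `LGO/Gal/Fin.lean`, `hconst`).
-/

namespace Pool.Agent.LGO.CK

open Polynomial UpperHalfPlane Pool.Agent.Hhelper14.ZP Pool.Agent.Hhelper14.ZPL

/-- no common pole on the projective line -/
def NoPole (A B A' B' : Polynomial Qb) : Prop :=
  (∀ z : Qb, B.eval z = 0 → B'.eval z ≠ 0) ∧
    ¬ (B.natDegree < A.natDegree ∧ B'.natDegree < A'.natDegree)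

/-- the values of two rational functions and their conjugates -/
def RelAB (A B A' B' : Polynomial Qb) (x y : ℂ) : Prop := ∃ (σ : ℂ ≃+* ℂ) (t : ℂ),
  (aeval t B : ℂ) ≠ 0 ∧ (aeval t B' : ℂ) ≠ 0 ∧ x = σ (aeval t A / aeval t B) ∧
    y = σ (aeval t A' / aeval t B')

/-- the embedding of `Qb` given by an automorphism of `ℂ` -/
noncomputable def clsB_emb (σ : ℂ ≃+* ℂ) : Qb →+* ℂ := σ.toRingHom.comp (algebraMap Qb ℂ)

theorem clsB_emb_apply (σ : ℂ ≃+* ℂ) (c : Qb) : clsB_emb σ c = σ (c : ℂ) := rfl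

theorem clsB_aeval (σ : ℂ ≃+* ℂ) (t : ℂ) (P : Polynomial Qb) :
    σ (aeval t P) = (P.map (clsB_emb σ)).eval (σ t) := by
  rw [eval_map, aeval_def]
  exact hom_eval₂ P (algebraMap Qb ℂ) σ.toRingHom t

theorem clsB_algebraic (c : Qb) : IsAlgebraic ℚ (c : ℂ) := mem_algebraicClosure_iff.mp c.2

theorem clsB_conj_root (σ : ℂ ≃+* ℂ) (c : Qb) :
    clsB_emb σ c ∈ (minpoly ℚ (c : ℂ)).rootSet ℂ := by
  have hint : IsIntegral ℚ (c : ℂ) := (clsB_algebraic c).isIntegral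
  rw [mem_rootSet]
  refine ⟨minpoly.ne_zero hint, ?_⟩
  rw [clsB_emb_apply]
  have h1 : (aeval ((σ.toRingHom.toRatAlgHom) (c : ℂ)) (minpoly ℚ (c : ℂ)) : ℂ) = 0 := by
    rw [aeval_algHom_apply, minpoly.aeval, map_zero]
  exact h1

theorem clsB_conj_algebraic (σ : ℂ ≃+* ℂ) (c : Qb) : IsAlgebraic ℚ (clsB_emb σ c) :=
  IsAlgebraic.algHom (σ.toRingHom.toRatAlgHom) (clsB_algebraic c)

/-- finitely many conjugates of a polynomial -/
theorem clsB_finite (P : Polynomial Qb) :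
    (Set.range fun σ : ℂ ≃+* ℂ => P.map (clsB_emb σ)).Finite := by
  classical
  have h1 : (Set.univ.pi fun i : Fin (P.natDegree + 1) =>
      ((minpoly ℚ ((P.coeff i : Qb) : ℂ)).rootSet ℂ)).Finite :=
    Set.Finite.pi fun i => Set.toFinite _
  refine (h1.image fun f => ∑ i : Fin (P.natDegree + 1), C (f i) * X ^ (i : ℕ)).subset ?_
  rintro _ ⟨σ, rfl⟩
  refine ⟨fun i => clsB_emb σ (P.coeff i), fun i _ => clsB_conj_root σ _, ?_⟩
  change ∑ i : Fin (P.natDegree + 1), C (clsB_emb σ (P.coeff i)) * X ^ (i : ℕ) =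
    P.map (clsB_emb σ)
  rw [Fin.sum_univ_eq_sum_range (fun i => C (clsB_emb σ (P.coeff i)) * X ^ i)]
  conv_rhs => rw [P.as_sum_range_C_mul_X_pow]
  rw [Polynomial.map_sum]
  refine Finset.sum_congr rfl fun i _ => ?_
  simp

theorem clsB_coprime {B B' : Polynomial Qb} (h : ∀ z : Qb, B.eval z = 0 → B'.eval z ≠ 0) :
    IsCoprime B B' := by
  rw [isCoprime_iff_aeval_ne_zero_of_isAlgClosed Qb Qb B B']
  intro z
  by_cases hz : B.eval z = 0
  · right
    simpa using h z hz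
  · left
    simpa using hz

theorem clsB_map_coprime {A B : Polynomial Qb} (h : IsCoprime A B) (σ : ℂ ≃+* ℂ) :
    IsCoprime (A.map (clsB_emb σ)) (B.map (clsB_emb σ)) :=
  h.map (mapRingHom (clsB_emb σ))

theorem clsB_not_both {P Q : Polynomial ℂ} (h : IsCoprime P Q) (z : ℂ) (h1 : P.eval z = 0) :
    Q.eval z ≠ 0 := by
  intro h2
  obtain ⟨u, v, huv⟩ := h
  have h3 := congrArg (eval z) huv
  rw [eval_add, eval_mul, eval_mul, h1, h2, mul_zero, mul_zero, add_zero, eval_one] at h3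
  exact zero_ne_one h3

theorem cls_param {A B A' B' : Polynomial Qb} (hB : B ≠ 0) (hB' : B' ≠ 0) (h₁ : IsCoprime A B)
    (h₂ : IsCoprime A' B') (h : NoPole A B A' B') : Cls (RelAB A B A' B') := by
  classical
  have hinj : ∀ σ, Function.Injective (clsB_emb σ) := fun σ => (clsB_emb σ).injective
  have key : ∀ σ : ℂ ≃+* ℂ, ∃ (Z : Set ℂ) (C : ℝ) (m : ℕ), Z.Finite ∧
      (∀ β ∈ Z, IsAlgebraic ℚ β) ∧ 1 ≤ C ∧ 0 < m ∧
      ∀ t : ℂ, (B.map (clsB_emb σ)).eval t ≠ 0 → (B'.map (clsB_emb σ)).eval t ≠ 0 →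
        C ≤ ‖(A.map (clsB_emb σ)).eval t / (B.map (clsB_emb σ)).eval t‖ →
        ∃ β ∈ Z, ‖(A'.map (clsB_emb σ)).eval t / (B'.map (clsB_emb σ)).eval t - β‖ ^ m ≤
          C / ‖(A.map (clsB_emb σ)).eval t / (B.map (clsB_emb σ)).eval t‖ := by
    intro σ
    refine cls_fix ((Polynomial.map_ne_zero_iff (hinj σ)).mpr hB)
      ((Polynomial.map_ne_zero_iff (hinj σ)).mpr hB') (clsB_map_coprime h₁ σ)
      (clsB_map_coprime h₂ σ)
      (fun z hz => clsB_not_both (clsB_map_coprime (clsB_coprime h.1) σ) z hz) ?_ ?_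
    · simp only [natDegree_map]
      exact h.2
    · intro n
      simp only [coeff_map]
      exact ⟨clsB_conj_algebraic σ _, clsB_conj_algebraic σ _, clsB_conj_algebraic σ _,
        clsB_conj_algebraic σ _⟩
  choose Z C m hZ hZa hC hm hbd using key
  let F : (ℂ ≃+* ℂ) → (ℂ[X] × ℂ[X]) × (ℂ[X] × ℂ[X]) := fun σ =>
    ((A.map (clsB_emb σ), B.map (clsB_emb σ)), (A'.map (clsB_emb σ), B'.map (clsB_emb σ)))
  have hF : (Set.range F).Finite := by
    refine (((clsB_finite A).prod (clsB_finite B)).prod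
      ((clsB_finite A').prod (clsB_finite B'))).subset ?_
    rintro _ ⟨σ, rfl⟩
    exact ⟨⟨⟨σ, rfl⟩, ⟨σ, rfl⟩⟩, ⟨⟨σ, rfl⟩, ⟨σ, rfl⟩⟩⟩
  have : Fintype (Set.range F) := hF.fintype
  let r : Set.range F → (ℂ ≃+* ℂ) := Set.rangeSplitting F
  have hr : ∀ p, F (r p) = p := fun p => Set.apply_rangeSplitting F p
  refine ⟨⋃ p, Z (r p), 1 + ∑ p, C (r p), 1 + ∑ p, m (r p), Set.finite_iUnion fun p => hZ _,
    ?_, ?_, by omega, ?_⟩
  · intro β hβ
    obtain ⟨p, hp⟩ := Set.mem_iUnion.mp hβ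
    exact hZa _ β hp
  · have : 0 ≤ ∑ p, C (r p) := Finset.sum_nonneg fun p _ => zero_le_one.trans (hC _)
    linarith
  · rintro x y ⟨σ, t, ht, ht', hx, hy⟩ hxC
    set p : Set.range F := ⟨F σ, σ, rfl⟩ with hp
    have hFp : F (r p) = F σ := hr p
    have hCp : C (r p) ≤ 1 + ∑ p, C (r p) := by
      have := Finset.single_le_sum (f := fun p => C (r p))
        (fun p _ => zero_le_one.trans (hC (r p))) (Finset.mem_univ p)
      linarith
    have hmp : m (r p) ≤ 1 + ∑ p, m (r p) := by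
      have := Finset.single_le_sum (f := fun p => m (r p))
        (fun p _ => Nat.zero_le _) (Finset.mem_univ p)
      omega
    have hA1 : A.map (clsB_emb (r p)) = A.map (clsB_emb σ) := congrArg (fun u => u.1.1) hFp
    have hB1 : B.map (clsB_emb (r p)) = B.map (clsB_emb σ) := congrArg (fun u => u.1.2) hFp
    have hA2 : A'.map (clsB_emb (r p)) = A'.map (clsB_emb σ) := congrArg (fun u => u.2.1) hFp
    have hB2 : B'.map (clsB_emb (r p)) = B'.map (clsB_emb σ) := congrArg (fun u => u.2.2) hFp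
    have hbd' := hbd (r p) (σ t)
    have hx1 : σ (aeval t A) / σ (aeval t B) = x := by rw [hx, map_div₀ σ]
    have hy1 : σ (aeval t A') / σ (aeval t B') = y := by rw [hy, map_div₀ σ]
    rw [hA1, hB1, hA2, hB2, ← clsB_aeval, ← clsB_aeval, ← clsB_aeval, ← clsB_aeval, hx1,
      hy1] at hbd'
    obtain ⟨β, hβ, hβ'⟩ := hbd' (by simpa using ht) (by simpa using ht') (hCp.trans hxC)
    refine ⟨β, Set.mem_iUnion.mpr ⟨p, hβ⟩, ?_⟩
    have hx0 : 0 < ‖x‖ := by
      have := hC (r p)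
      linarith [hCp.trans hxC]
    have h1 : ‖y - β‖ ^ m (r p) ≤ 1 := by
      refine hβ'.trans ?_
      rw [div_le_one hx0]
      exact hCp.trans hxC
    have h2 : ‖y - β‖ ≤ 1 := by
      by_contra hcon
      push Not at hcon
      exact absurd h1 (not_le.mpr (one_lt_pow₀ hcon (hm _).ne'))
    calc ‖y - β‖ ^ (1 + ∑ p, m (r p)) ≤ ‖y - β‖ ^ m (r p) :=
          pow_le_pow_of_le_one (norm_nonneg _) h2 hmp
      _ ≤ C (r p) / ‖x‖ := hβ'
      _ ≤ (1 + ∑ p, C (r p)) / ‖x‖ := by gcongr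

theorem clsB_closed {n : ℕ} (a : Fin n) (c : ℂ) : IsZClosed {x : Fin n → ℂ | x a = c} := by
  refine Set.Subset.antisymm ?_ (subset_closure' _)
  intro x hx
  rw [MvPolynomial.mem_zeroLocus_iff] at hx
  have h1 := hx (MvPolynomial.X a - MvPolynomial.C c) (by
    rw [MvPolynomial.mem_vanishingIdeal_iff]
    intro y hy
    have hy' : y a = c := hy
    simp [hy'])
  simp only [map_sub, MvPolynomial.aeval_X, MvPolynomial.aeval_C, Algebra.algebraMap_self,
    RingHom.id_apply] at h1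
  exact sub_eq_zero.mp h1

theorem clsB_finite_fibre {n : ℕ} {V : Set (Fin n → ℂ)}
    (hV : Pool.Agent.Hhelper14.ZPL.IsIrredClosed V)
    (hdim : Pool.Agent.Hhelper14.ZPL.dim V = 1) {a : Fin n}
    (ha : ∀ c : ℂ, ∃ x ∈ V, x a ≠ c) (c : ℂ) : (V ∩ {x : Fin n → ℂ | x a = c}).Finite := by
  refine finite_inter hV hdim (clsB_closed a c) ?_
  intro hsub
  obtain ⟨x, hx, hxc⟩ := ha c
  exact hxc (hsub hx)

theorem clsB_noPole_symm {A B A' B' : Polynomial Qb} (h : NoPole A B A' B') :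
    NoPole A' B' A B :=
  ⟨fun z hz hz' => h.1 z hz' hz, fun h' => h.2 ⟨h'.2, h'.1⟩⟩

theorem t4 {n : ℕ} {V : Set (Fin n → ℂ)} (hV : Pool.Agent.Hhelper14.ZPL.IsIrredClosed V)
    (hdim : Pool.Agent.Hhelper14.ZPL.dim V = 1) {a b : Fin n}
    (ha : ∀ c : ℂ, ∃ x ∈ V, x a ≠ c) (hb : ∀ c : ℂ, ∃ x ∈ V, x b ≠ c)
    {A B A' B' : Polynomial Qb} (hB : B ≠ 0) (hB' : B' ≠ 0) (h₁ : IsCoprime A B)
    (h₂ : IsCoprime A' B') (h : NoPole A B A' B') {E : Set (Fin n → ℂ)} (hE : E.Finite)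
    (hpar : ∀ x ∈ V, x ∉ E → ∃ t : ℂ, (aeval t B : ℂ) ≠ 0 ∧ (aeval t B' : ℂ) ≠ 0 ∧
      x a * aeval t B = aeval t A ∧ x b * aeval t B' = aeval t A') :
    {x ∈ V | IsCMVal (x a) ∧ IsCMVal (x b)}.Finite := by
  have hR : ∀ (σ : ℂ ≃+* ℂ) x y, RelAB A B A' B' x y → RelAB A B A' B' (σ x) (σ y) := by
    rintro σ x y ⟨τ, t, ht, ht', hx, hy⟩
    refine ⟨τ.trans σ, t, ht, ht', ?_, ?_⟩
    · rw [hx]
      rfl
    · rw [hy]
      rfl
  have hc1 := cls_param hB hB' h₁ h₂ h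
  have hc2 : Cls fun x y => RelAB A B A' B' y x := by
    obtain ⟨S, C, m, hS, hSa, hC, hm, hb'⟩ := cls_param hB' hB h₂ h₁ (clsB_noPole_symm h)
    refine ⟨S, C, m, hS, hSa, hC, hm, ?_⟩
    rintro x y ⟨σ, t, ht, ht', hx, hy⟩ hxC
    exact hb' x y ⟨σ, t, ht', ht, hy, hx⟩ hxC
  obtain ⟨S, hS, hS'⟩ := ao_of_cls hR hc1 hc2
  refine (hE.union ((Set.Finite.biUnion hS fun c _ => clsB_finite_fibre hV hdim ha c).union
    (Set.Finite.biUnion hS fun c _ => clsB_finite_fibre hV hdim hb c))).subset ?_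
  rintro x ⟨hxV, hxa, hxb⟩
  by_cases hxE : x ∈ E
  · exact Or.inl hxE
  · right
    obtain ⟨t, ht, ht', hta, htb⟩ := hpar x hxV hxE
    have hrel : RelAB A B A' B' (x a) (x b) := by
      refine ⟨RingEquiv.refl ℂ, t, ht, ht', ?_, ?_⟩
      · rw [RingEquiv.refl_apply, eq_div_iff ht]
        exact hta
      · rw [RingEquiv.refl_apply, eq_div_iff ht']
        exact htb
    rcases hS' _ _ hrel hxa hxb with h1 | h1
    · left
      exact Set.mem_biUnion h1 ⟨hxV, rfl⟩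
    · right
      exact Set.mem_biUnion h1 ⟨hxV, rfl⟩

end Pool.Agent.LGO.CK
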